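import Pool.Agent.helper25.SXN.Cross

set_option autoImplicit false

/-!
# Module Crit: the criterion for nefness with big points

`three_pts`: `∑_(i < 9) mult ≤ 3 deg` at `9 + m` very general points (`nine_sum`).
`nefPB_of`: as `nefP_of` (ST/Nef0.lean), for `n = 9 + m`: the countable set is the union of the one of
`Pool.Agent.helper7.SC.wxu 1 (9 + m) one_pos`, the sets of `Pos.pull hP j`, of `cross_pts` pulled back by
`pullι j` for `j : Fin m`, the one of `three_pts` and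
`Set.range (fun x : ℕ × (Fin (9 + m) → ℕ) => Qf x.1 x.2)`. For an irreducible curve
`F`, `β i = mult (q (Fin.castAdd m i)) F`, `μ j = mult (q (Fin.natAdd 9 j)) F`.
-/

namespace Pool.Agent.helper25.SXN

open MvPolynomial Pool.Agent.helper5.NBS Pool.Agent.helper89.Segre Pool.Agent.SH9
  Pool.Agent.helper25.ST

open Pool.Agent.helper22.SC in
lemma three_pts (m : ℕ) : ∃ T : Set (PtRing (9 + m)), T.Countable ∧ (∀ Q ∈ T, Q ≠ 0) ∧
    ∀ q : Fin (9 + m) → Fin 2 → ℂ, (∀ Q ∈ T, evP q Q ≠ 0) → ∀ F : R2, Irreducible F →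
      ∑ i, mult (q (Fin.castAdd m i)) F ≤ 3 * wdeg 1 F := by
  refine pull_gen (Fin.castAdd m) (Fin.castAdd_injective _ _)
    (fun q => ∀ F : R2, Irreducible F → ∑ i, mult (q i) F ≤ 3 * wdeg 1 F)
    ⟨TN one_pos 9, TN_countable one_pos _, TN_ne one_pos _, fun q hq F hF => ?_⟩
  exact Pool.Agent.KB.nine_sum (VGN_of one_pos hq) hF

open Pool.Agent.helper25.ST.Nef0aux in
theorem nefPB_of {D X m : ℕ} {b : Fin 9 → ℕ} (v : Fin m → ℕ) (hm : 0 < m) (hP : Pos D X b)
    (H : ∀ (e : ℕ) (β : Fin 9 → ℕ) (μ : Fin m → ℕ), Curve D X b e β μ →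
      D * e < ∑ i, b i * β i + ∑ i, v i * μ i → E e (Bm β + Finset.univ.val.map μ)) :
    NefP D (Fin.append b v) := by
  obtain ⟨T, hT, hT0, hTp⟩ := Pool.Agent.helper7.SC.wxu 1 (9 + m) one_pos
  choose P1 hP1 hP1n hP1p using fun j : Fin m => Pos.pull hP j
  choose P2 hP2 hP2n hP2p using fun j : Fin m => pull_gen (pullι j) (pullι_inj j) _ cross_pts
  obtain ⟨P3, hP3, hP3n, hP3p⟩ := three_pts m
  refine ⟨(T ∪ P3) ∪ (⋃ j, P1 j) ∪ (⋃ j, P2 j) ∪
    Set.range (fun x : ℕ × (Fin (9 + m) → ℕ) => Qf x.1 x.2),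
    (((hT.union hP3).union (Set.countable_iUnion hP1)).union (Set.countable_iUnion hP2)).union
      (Set.countable_range _), ?_, ?_⟩
  · rintro Q ((((hQ | hQ) | hQ) | hQ) | ⟨x, rfl⟩)
    · exact hT0 Q hQ
    · exact hP3n Q hQ
    · obtain ⟨j, hj⟩ := Set.mem_iUnion.mp hQ
      exact hP1n j Q hj
    · obtain ⟨j, hj⟩ := Set.mem_iUnion.mp hQ
      exact hP2n j Q hj
    · exact Qf_ne _ _
  · intro q hq
    obtain ⟨hinj, hirr⟩ := hTp q (fun Q hQ => hq Q (Or.inl (Or.inl (Or.inl (Or.inl hQ)))))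
    refine ⟨hinj, nef_of_irred ?_⟩
    intro F hF
    by_contra hcon
    push Not at hcon
    have hF0 := hF.ne_zero
    set β : Fin 9 → ℕ := fun i => mult (q (Fin.castAdd m i)) F with hβ
    set μ : Fin m → ℕ := fun j => mult (q (Fin.natAdd 9 j)) F with hμ
    have happ : Fin.append β μ = fun i => mult (q i) F := by
      funext i
      refine Fin.addCases (fun i => ?_) (fun i => ?_) i
      · rw [Fin.append_left]
      · rw [Fin.append_right]
    have hstd : ∀ j, ∑ i, b i * β i + X * μ j ≤ D * wdeg 1 F := fun j =>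
      hP1p j q (fun Q hQ => hq Q (Or.inl (Or.inl (Or.inr (Set.mem_iUnion.mpr ⟨j, hQ⟩))))) F hF
    have hv : D * wdeg 1 F < ∑ i, b i * β i + ∑ i, v i * μ i := by
      have h2 : ∑ i, Fin.append b v i * mult (q i) F = ∑ i, b i * β i + ∑ i, v i * μ i := by
        rw [Fin.sum_univ_add]
        simp only [Fin.append_left, Fin.append_right, hβ, hμ]
      rw [← h2]
      exact hcon
    obtain ⟨j, hj⟩ : ∃ j, 0 < μ j := by
      by_contra hc
      push Not at hc
      have h1 : ∑ i, v i * μ i = 0 := Finset.sum_eq_zero fun i _ => by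
        have := hc i
        rw [Nat.le_zero.mp this, mul_zero]
      have h2 := hstd ⟨0, hm⟩
      omega
    have hcross : Cross (wdeg 1 F) β := cross_of_away hinj hF hj
      (hP2p j q (fun Q hQ => hq Q (Or.inl (Or.inr (Set.mem_iUnion.mpr ⟨j, hQ⟩)))))
    have hth : ∑ i, β i ≤ 3 * wdeg 1 F :=
      hP3p q (fun Q hQ => hq Q (Or.inl (Or.inl (Or.inl (Or.inr hQ))))) F hF
    have hc : Curve D X b (wdeg 1 F) β μ := by
      refine ⟨Pool.Agent.helper7.SC.wdeg_pos one_pos hF, ?_, fun j => mult_le_deg _ hF0,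
        fun i => mult_le_deg _ hF0, hth, hstd, hcross⟩
      intro j hj
      have h := (hirr F hF).1 (Fin.natAdd 9 j) hj
      simp only [one_mul] at h
      have h2 : ∑ i, mult (q i) F ^ 2 = ∑ i, β i ^ 2 + ∑ i, μ i ^ 2 := by
        rw [Fin.sum_univ_add]
      rw [← h2]
      simpa using h
    have h1 := H _ β μ hc hv
    rw [← map_append', happ] at h1
    have h2 := Qf_emp h1 (hq _ (Or.inr ⟨(wdeg 1 F, fun i => mult (q i) F), rfl⟩))
    exact hF0 (h2 F le_rfl (fun i => (mem_pow_iff_le_mult hF0).mpr le_rfl))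

end Pool.Agent.helper25.SXN
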