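import Pool.Agent.helper25.SXN.Pull

set_option autoImplicit false

/-!
# Module Cross: a curve through a general point meets every system nonnegatively

`cross_pts`: outside a countable set, for `q : Fin (9 + 1) → ℂ²` and every `(E'; γ)` which is not empty at nine
general points there is a curve `G` of degree `≤ E'` with multiplicities `≥ γ` at the first nine points
not passing through the last one (`qqN_spec`: the family of curves `polyOf` depending polynomially on the points).
-/

namespace Pool.Agent.helper25.SXN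

open MvPolynomial Pool.Agent.helper5.NBS Pool.Agent.helper89.Segre Pool.Agent.SH9
  Pool.Agent.helper25.ST Pool.Agent.helper22.SC Pool.Agent.helper7.SC

/-- the curve of the system not passing through the last point -/
def Away (q : Fin (9 + 1) → Fin 2 → ℂ) (E' : ℕ) (γ : Fin 9 → ℕ) : Prop :=
  ∃ G : R2, wdeg 1 G ≤ E' ∧ (∀ i, G ∈ ptIdeal (q (Fin.castAdd 1 i)) ^ γ i) ∧
    eval (q (Fin.natAdd 9 0)) G ≠ 0

private lemma exists_pt {σ : Type} {Q : MvPolynomial σ ℂ} (h : Q ≠ 0) : ∃ x, eval x Q ≠ 0 := by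
  by_contra hcon
  push Not at hcon
  exact h (MvPolynomial.funext fun x => by rw [hcon x, map_zero])

lemma exists_cross {E' : ℕ} {γ : Fin 9 → ℕ} (h : ¬ E E' (Bm γ)) :
    ∃ Φ : PtRing (9 + 1), Φ ≠ 0 ∧ ∀ q : Fin (9 + 1) → Fin 2 → ℂ, evP q Φ ≠ 0 → Away q E' γ := by
  classical
  rcases qqN_spec one_pos 9 E' γ with h1 | ⟨v, hv, k, hk⟩
  · exfalso
    obtain ⟨x, hx⟩ := exists_pt (qqN_ne one_pos 9 E' γ)
    refine h (E_of_emp (p := fun i j => x (i, j)) ?_)
    intro F hF hm
    exact h1 (fun i j => x (i, j)) hx F ⟨hF, hm⟩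
  · set Φ : PtRing (9 + 1) := ∑ l : ExN 1 E',
      rename (fun x : Fin 9 × Fin 2 => ((Fin.castAdd 1 x.1, x.2) : Fin (9 + 1) × Fin 2)) (v l) *
        (X (Fin.natAdd 9 0, 0) ^ (l.1 0) * X (Fin.natAdd 9 0, 1) ^ (l.1 1)) with hΦ
    have hev : ∀ q : Fin (9 + 1) → Fin 2 → ℂ, evP q Φ =
        eval (q (Fin.natAdd 9 0))
          (polyOf (ExN 1 E') (fun l => evP (fun i => q (Fin.castAdd 1 i)) (v l))) := by
      intro q
      rw [hΦ, map_sum, polyOf, map_sum]
      refine Finset.sum_congr rfl fun l _ => ?_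
      rw [map_mul, map_mul, map_pow, map_pow, evP, evP, eval_rename, eval_X, eval_X, eval_monomial,
        Finsupp.prod_fintype _ _ (fun i => by simp), Fin.prod_univ_two]
      rfl
    refine ⟨Φ, ?_, ?_⟩
    · intro h0
      have hk0 : v k ≠ 0 := by rw [hk]; exact qqN_ne one_pos 9 E' γ
      obtain ⟨x, hx⟩ := exists_pt hk0
      have hpoly : polyOf (ExN 1 E') (fun l => evP (fun i j => x (i, j)) (v l)) ≠ 0 := by
        intro h2
        have h3 := coeff_polyOf (ExN 1 E') (fun l => evP (fun i j => x (i, j)) (v l)) k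
        rw [h2, coeff_zero] at h3
        exact hx h3.symm
      obtain ⟨y, hy⟩ := exists_pt hpoly
      set q : Fin (9 + 1) → Fin 2 → ℂ :=
        Fin.append (fun i j => x (i, j)) (fun _ => y) with hq
      have h4 := hev q
      rw [h0, map_zero] at h4
      have h5 : (fun i => q (Fin.castAdd 1 i)) = fun (i : Fin 9) (j : Fin 2) => x (i, j) := by
        funext i
        rw [hq, Fin.append_left]
      have h6 : q (Fin.natAdd 9 0) = y := by rw [hq, Fin.append_right]
      rw [h5, h6] at h4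
      exact hy h4.symm
    · intro q hq
      rw [hev] at hq
      have hl := hv.lin one_pos (fun i => q (Fin.castAdd 1 i))
      exact ⟨_, hl.1, hl.2, hq⟩

lemma cross_pts : ∃ T : Set (PtRing (9 + 1)), T.Countable ∧ (∀ Q ∈ T, Q ≠ 0) ∧
    ∀ q : Fin (9 + 1) → Fin 2 → ℂ, (∀ Q ∈ T, evP q Q ≠ 0) →
      ∀ (E' : ℕ) (γ : Fin 9 → ℕ), ¬ E E' (Bm γ) → Away q E' γ := by
  classical
  refine ⟨Set.range (fun x : ℕ × (Fin 9 → ℕ) =>
    if h : E x.1 (Bm x.2) then (1 : PtRing (9 + 1)) else Classical.choose (exists_cross h)),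
    Set.countable_range _, ?_, ?_⟩
  · rintro Q ⟨x, rfl⟩
    dsimp only
    split_ifs with h
    · exact one_ne_zero
    · exact (Classical.choose_spec (exists_cross h)).1
  · intro q hq E' γ h
    have h1 := hq _ ⟨(E', γ), rfl⟩
    dsimp only at h1
    rw [dif_neg h] at h1
    exact (Classical.choose_spec (exists_cross h)).2 q h1

/-- a curve through the point `j` is nonnegative on every system -/
lemma cross_of_away {m : ℕ} {q : Fin (9 + m) → Fin 2 → ℂ} (hinj : Function.Injective q)
    {F : R2} (hF : Irreducible F) {j : Fin m} (hj : 0 < mult (q (Fin.natAdd 9 j)) F)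
    (h : ∀ (E' : ℕ) (γ : Fin 9 → ℕ), ¬ E E' (Bm γ) → Away (fun i => q (pullι j i)) E' γ) :
    Cross (wdeg 1 F) (fun i => mult (q (Fin.castAdd m i)) F) := by
  intro E' γ hE
  obtain ⟨G, hG1, hG2, hG3⟩ := h E' γ hE
  simp only [pullι_left, pullι_right] at hG2 hG3
  have hG0 : G ≠ 0 := by
    rintro rfl
    exact hG3 (map_zero _)
  have hFj : eval (q (Fin.natAdd 9 j)) F = 0 := by
    have h1 : F ∈ ptIdeal (q (Fin.natAdd 9 j)) ^ 1 := (mem_pow_iff_le_mult hF.ne_zero).mpr hj
    have h2 := mem_ptIdeal_pow.mp h1 0 (by simp)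
    rw [← constantCoeff_eq] at h2
    have h3 : constantCoeff (trans (q (Fin.natAdd 9 j)) F) = eval (q (Fin.natAdd 9 j)) F := by
      have h4 : trans (q (Fin.natAdd 9 j)) F =
          aeval (fun k : Fin 2 => (X k + C (q (Fin.natAdd 9 j) k) : R2)) F := rfl
      rw [h4]
      have h5 : (constantCoeff : R2 →+* ℂ).comp
          (aeval (fun k : Fin 2 => (X k + C (q (Fin.natAdd 9 j) k) : R2)) : R2 →ₐ[ℂ] R2).toRingHom =
          eval (q (Fin.natAdd 9 j)) := by
        apply MvPolynomial.ringHom_ext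
        · intro c
          simp
        · intro k
          simp
      exact congrArg (fun f : R2 →+* ℂ => f F) h5
    rw [← h3]
    exact h2
  have hnd : ¬ F ∣ G := by
    rintro ⟨U, rfl⟩
    exact hG3 (by rw [map_mul, hFj, zero_mul])
  have hrel : IsRelPrime F G := (hF.isRelPrime_iff_not_dvd).mpr hnd
  have hb := Pool.Agent.helper89.Exp.bez 1 hF.ne_zero hG0 hrel
    (fun i : Fin 9 => q (Fin.castAdd m i))
    (fun a b hab => Fin.castAdd_injective _ _ (hinj hab))
    (fun i => mult (q (Fin.castAdd m i)) F) γ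
    (fun i => (mem_pow_iff_le_mult hF.ne_zero).mpr le_rfl) hG2
  rw [one_mul] at hb
  exact hb.trans (Nat.mul_le_mul_left _ hG1)

end Pool.Agent.helper25.SXN
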