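import Pool.Agent.helper25.ST.Nef0
import Pool.Agent.KB.N4

set_option autoImplicit false

/-!
# Project SXN (MP_cfebfb_ag): nine arbitrary points, the others small. Definitions.

`b : Fin 9 → ℕ` are the big weights / multiplicities. `Pos D X b`: on the plane blown up at ten very
general points every irreducible curve `F` satisfies `∑ b mult + X mult_10 ≤ D deg F`.
-/

namespace Pool.Agent.helper25.SXN

open MvPolynomial Pool.Agent.helper5.NBS Pool.Agent.helper89.Segre Pool.Agent.SH9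
  Pool.Agent.helper25.ST

/-- the multiset of the nine big multiplicities -/
def Bm (b : Fin 9 → ℕ) : Multiset ℕ := Finset.univ.val.map b

/-- `(D; b, X)` is nef at ten very general points -/
def Pos (D X : ℕ) (b : Fin 9 → ℕ) : Prop :=
  ∃ T : Set (PtRing (9 + 1)), T.Countable ∧ (∀ Q ∈ T, Q ≠ 0) ∧
    ∀ q : Fin (9 + 1) → Fin 2 → ℂ, (∀ Q ∈ T, evP q Q ≠ 0) → ∀ F : R2, Irreducible F →
      ∑ i, b i * mult (q (Fin.castAdd 1 i)) F + X * mult (q (Fin.natAdd 9 0)) F ≤ D * wdeg 1 F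

/-- `(e; β)` meets every system `(E'; γ)` which is not empty at nine general points nonnegatively -/
def Cross (e : ℕ) (β : Fin 9 → ℕ) : Prop :=
  ∀ (E' : ℕ) (γ : Fin 9 → ℕ), ¬ E E' (Bm γ) → ∑ i, β i * γ i ≤ e * E'

/-- the numerical properties of an irreducible curve of degree `e` with multiplicities `β` at the
nine big points and `μ` at the others (through at least one of the others) -/
structure Curve (D X : ℕ) (b : Fin 9 → ℕ) {m : ℕ} (e : ℕ) (β : Fin 9 → ℕ) (μ : Fin m → ℕ) :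
    Prop where
  pos : 0 < e
  xu : ∀ j, 0 < μ j → ∑ i, β i ^ 2 + ∑ i, μ i ^ 2 ≤ e ^ 2 + μ j
  le : ∀ j, μ j ≤ e
  leB : ∀ i, β i ≤ e
  three : ∑ i, β i ≤ 3 * e
  std : ∀ j, ∑ i, b i * β i + X * μ j ≤ D * e
  cross : Cross e β

/-- `(e; β)` is almost proportional to `(D; b)`; `N = D² - ∑ b²`, `NF = e² - ∑ β²` -/
structure Near (D : ℕ) (b : Fin 9 → ℕ) (N e : ℕ) (β : Fin 9 → ℕ) (NF W : ℕ) : Prop where
  hN : ∑ i, b i ^ 2 + N = D ^ 2
  hNF : ∑ i, β i ^ 2 + NF = e ^ 2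
  near : ∃ f mm : ℕ, ∑ i, b i * β i + f = D * e ∧ f ^ 2 ≤ N * (NF + mm) ∧ 1 ≤ mm ∧
    1000 * mm ≤ NF ∧ 36 * (mm ^ 2 * N) ≤ 49 * (NF * W ^ 2)

/-- the nefness needed for systems of degree `d` with big points `b` and other multiplicities
less than `W` -/
def NefTB (d : ℕ) (b : Fin 9 → ℕ) (W Δ : ℕ) : Prop :=
  (∀ (m : ℕ) (v : Fin m → ℕ), 0 < m → (∀ i, v i ≤ W) →
    ∑ i, (b i + 1) ^ 2 + ∑ i, v i ^ 2 + Δ ≤ (d + 3) ^ 2 →
      NefP (d + 3) (Fin.append (fun i => b i + 1) v)) ∧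
  (∀ (m : ℕ) (v : Fin m → ℕ), 0 < m → (∀ i, v i ≤ W) → ∀ D : ℕ, d ≤ D →
    ∑ i, b i ^ 2 + ∑ i, v i ^ 2 + Δ ≤ D ^ 2 → NefP D (Fin.append b v))

/-- nefness of level given by `K` and the condition `c W Δ N`, `N = D² - ∑ b²` -/
def Lev (K : ℕ) (c : ℕ → ℕ → ℕ → Prop) : Prop :=
  ∀ (D X W Δ N m : ℕ) (b : Fin 9 → ℕ) (v : Fin m → ℕ), 0 < m → 1 ≤ W → K * W ≤ X → Pos D X b →
    ∑ i, b i ^ 2 + N = D ^ 2 → X * D ≤ N → c W Δ N → (∀ i, v i ≤ W) → ∑ i, v i ^ 2 + Δ ≤ N →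
    NefP D (Fin.append b v)

lemma two_cd_Bm (b : Fin 9 → ℕ) : 2 * cd (Bm b) = ∑ i, b i ^ 2 + ∑ i, b i := by
  have h1 : cd (Bm b) = ∑ i, kk (b i) := by
    rw [cd, Bm, Multiset.map_map]
    rfl
  rw [h1, Finset.mul_sum, ← Finset.sum_add_distrib]
  refine Finset.sum_congr rfl fun i _ => ?_
  rw [two_mul_kk]
  ring

lemma map_append' {m : ℕ} (b : Fin 9 → ℕ) (v : Fin m → ℕ) :
    (Finset.univ : Finset (Fin (9 + m))).val.map (Fin.append b v) =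
      Bm b + (Finset.univ : Finset (Fin m)).val.map v :=
  Pool.Agent.KD.map_append b v

lemma sum_append_sq {m : ℕ} (b : Fin 9 → ℕ) (v : Fin m → ℕ) :
    ∑ i, Fin.append b v i ^ 2 = ∑ i, b i ^ 2 + ∑ i, v i ^ 2 := by
  rw [Fin.sum_univ_add]
  simp

end Pool.Agent.helper25.SXN
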