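import Pool.Agent.helper25.SXN.Inherit

set_option autoImplicit false

/-!
# Module NefT: `NefTB` from a level (`nefTB_of_lev`)

`nefB0`: `nefPB_of`; `numVB` with `Δ ≥ 2 W²`: conclusions `36 (NF Δ²) ≤ 49 (W² N)` and
`36 N ≤ 49 NF W²` give `144 NF W⁴ ≤ 36 NF Δ² ≤ 49 W² N ≤ (49² / 36) NF W⁴`, contradiction as
`144 * 36 > 49²`, `NF W⁴ > 0`. (`0 < N`: `X D ≤ N`; if `D = 0` then `∑ b² + N = 0`, and `2 W² ≤ Δ ≤ N`: in any
case `N ≥ Δ ≥ 2`.)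
`nefTB_of_lev`: the two parts of `NefTB e β W Δ` from a level: first part: degree `e + 3`, weights
`β + 1`: `pos_up`; `N'' = (e+3)² - ∑ (β+1)² = NF + 6 e - 2 ∑ β ≥ NF`; `X (e + 3) ≤ 2 X e ≤ NF` as
`e ≥ 3` (`e² ≥ NF ≥ 2 X e`, `X ≥ 2`... `e ≥ 2 X`). Second part: `pos_mono`; `N' = D² - ∑ β² ≥ NF` and
`X D ≤ N'`: `D² - X D ≥ e² - X e ≥ ∑ β²` since `D ≥ e ≥ X`. `hc`: the condition is monotone in `N`.
`nefB1`: `nefPB_of`, `numVB`, `Near.deg`, `numUpB`; `Near.pos` with `X'`; `nefTB_of_lev nefB0` with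
`W'`, `Δ = 2 W'²`; `procEB`. `hbC`: `2 C - 2 cd (Bm β) = NF + 3 e + 2 - ∑ β ≥ NF + 2 ≥ 2 (3 + 2 W'²)`.
`0 < N`: as `Δ N ≥ 10¹⁰ W⁴ > 0`.
-/

namespace Pool.Agent.helper25.SXN

open MvPolynomial Pool.Agent.helper5.NBS Pool.Agent.helper89.Segre Pool.Agent.SH9
  Pool.Agent.helper25.ST

theorem nefTB_of_lev {K e X W Δ NF : ℕ} {c : ℕ → ℕ → ℕ → Prop} {β : Fin 9 → ℕ} (hL : Lev K c)
    (hmono : ∀ N N', N ≤ N' → c W Δ N → c W Δ N') (hK : 1 ≤ K) (hW : 1 ≤ W) (hX : K * W ≤ X)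
    (hP : Pos e X β) (hNF : ∑ i, β i ^ 2 + NF = e ^ 2) (hNF0 : 0 < NF) (h3 : ∑ i, β i ≤ 3 * e)
    (hXe : 2 * (X * e) ≤ NF) (hc : c W Δ NF) (hX2 : 2 ≤ X) : NefTB e β W Δ := by
  have hepos : 0 < e := by
    rcases Nat.eq_zero_or_pos e with h | h
    · subst h
      simp at hNF
      omega
    · exact h
  have he2 : NF ≤ e ^ 2 := by omega
  have h2X : 2 * X ≤ e := by
    by_contra hcon
    push Not at hcon
    have h4 : e * e < 2 * X * e := Nat.mul_lt_mul_of_pos_right hcon hepos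
    nlinarith
  refine ⟨fun m v hm hv hs => ?_, fun m v hm hv D hD hs => ?_⟩
  · have hsum : ∑ i, (β i + 1) ^ 2 = ∑ i, β i ^ 2 + 2 * ∑ i, β i + 9 := by
      have h5 : ∀ i, (β i + 1) ^ 2 = β i ^ 2 + 2 * β i + 1 := fun i => by ring
      simp only [h5, Finset.sum_add_distrib, ← Finset.mul_sum]
      simp
    have h33 : (e + 3) ^ 2 = e ^ 2 + 6 * e + 9 := by ring
    obtain ⟨N'', hN''⟩ : ∃ N'', N'' + 2 * ∑ i, β i = NF + 6 * e :=
      ⟨NF + 6 * e - 2 * ∑ i, β i, by omega⟩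
    have hNN : NF ≤ N'' := by omega
    have hX3 : X * (e + 3) ≤ NF := by
      have h6 : X * 3 ≤ X * e := Nat.mul_le_mul_left _ (by omega)
      have h7 : X * (e + 3) = X * e + X * 3 := by ring
      omega
    exact hL (e + 3) X W Δ N'' m (fun i => β i + 1) v hm hW hX (pos_up hP) (by omega)
      (hX3.trans hNN) (hmono _ _ hNN hc) hv (by omega)
  · have hDD : e ^ 2 ≤ D ^ 2 := Nat.pow_le_pow_left hD 2
    obtain ⟨N', hN'⟩ : ∃ N', ∑ i, β i ^ 2 + N' = D ^ 2 := ⟨D ^ 2 - ∑ i, β i ^ 2, by omega⟩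
    have hNN : NF ≤ N' := by omega
    have hXD : X * D ≤ N' := by
      obtain ⟨k, rfl⟩ := Nat.exists_eq_add_of_le hD
      have h8 : X * k ≤ e * k := Nat.mul_le_mul_right _ (by omega)
      nlinarith [Nat.zero_le (k ^ 2)]
    exact hL D X W Δ N' m β v hm hW hX (pos_mono hP hD) hN' hXD (hmono _ _ hNN hc) hv (by omega)

end Pool.Agent.helper25.SXN
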