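import Pool.Agent.helper25.SXN.StdNum
import Pool.Agent.helper25.SXN.Crit

set_option autoImplicit false

/-!
# Module Std: standard weights at nine points and one small weight are nef (`std_pos`)

The last weight `b 8 = s` is the smallest. `∑ b γ = s ∑_(i < 9) γ + ∑_(i < 8) (b i - s) γ i`; the first part is at
most `3 s E`; the second part plus `X g` is at most `(D - 3 s) E` by `eight_pos` at the eight points and the tenth one
(`nine_sum`, `conic_num` at these nine very general points).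
-/

namespace Pool.Agent.helper25.SXN

open MvPolynomial Pool.Agent.helper5.NBS Pool.Agent.helper89.Segre Pool.Agent.SH9
  Pool.Agent.helper25.ST Pool.Agent.helper22.SC

/-- the first eight points and the tenth one -/
private def ι8 : Fin (8 + 1) → Fin (9 + 1) :=
  Fin.append (fun i : Fin 8 => Fin.castAdd 1 (Fin.castSucc i)) (fun _ => Fin.natAdd 9 0)

private lemma ι8_left (i : Fin 8) : ι8 (Fin.castAdd 1 i) = Fin.castAdd 1 (Fin.castSucc i) := by
  rw [ι8, Fin.append_left]

private lemma ι8_right (i : Fin 1) : ι8 (Fin.natAdd 8 i) = Fin.natAdd 9 0 := by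
  rw [ι8, Fin.append_right]

private lemma ι8_inj : Function.Injective ι8 := by
  intro x y hxy
  induction x using Fin.addCases with
  | left x =>
    induction y using Fin.addCases with
    | left y =>
      rw [ι8_left, ι8_left] at hxy
      rw [Fin.castSucc_injective _ (Fin.castAdd_injective _ _ hxy)]
    | right y =>
      rw [ι8_left, ι8_right] at hxy
      have h := congrArg Fin.val hxy
      simp only [Fin.val_castAdd, Fin.val_natAdd, Fin.val_castSucc] at h
      have := x.2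
      omega
  | right x =>
    induction y using Fin.addCases with
    | left y =>
      rw [ι8_left, ι8_right] at hxy
      have h := congrArg Fin.val hxy
      simp only [Fin.val_castAdd, Fin.val_natAdd, Fin.val_castSucc] at h
      have := y.2
      omega
    | right y =>
      rw [Subsingleton.elim x y]

private lemma nine_facts {q : Fin 9 → Fin 2 → ℂ} (hV : VGN one_pos q) {F : R2}
    (hF : Irreducible F) : ∑ i, mult (q i) F ≤ 3 * wdeg 1 F ∧
      ∀ i j k : Fin 9, i ≠ j → j ≠ k → i ≠ k →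
        mult (q i) F + mult (q j) F + mult (q k) F ≤ 2 * wdeg 1 F := by
  have h1 : ∀ i, mult (q i) F ≤ wdeg 1 F := fun i => Nef0aux.mult_le_deg _ hF.ne_zero
  have h2 : ∀ j, 0 < mult (q j) F → ∑ i, mult (q i) F ^ 2 ≤ wdeg 1 F ^ 2 + mult (q j) F :=
    fun j hj => Pool.Agent.KD.xuOne hV hF j hj
  have h9 : ∑ i, mult (q i) F ≤ 3 * wdeg 1 F := Pool.Agent.KB.nine_sum hV hF
  refine ⟨h9, ?_⟩
  generalize wdeg 1 F = E at *
  generalize hμ : (fun i => mult (q i) F) = μ
  have hμi : ∀ i, mult (q i) F = μ i := fun i => by rw [← hμ]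
  simp only [hμi] at *
  exact conic_num h1 h2

private lemma split_num {μ : Fin (8 + 1) → ℕ} {E : ℕ} (h9 : ∑ i, μ i ≤ 3 * E)
    (hc : ∀ i j k : Fin (8 + 1), i ≠ j → j ≠ k → i ≠ k → μ i + μ j + μ k ≤ 2 * E) :
    (∑ i : Fin 8, μ (Fin.castAdd 1 i) + μ (Fin.natAdd 8 0) ≤ 3 * E) ∧
      ∀ i j : Fin 8, i ≠ j → μ (Fin.castAdd 1 i) + μ (Fin.castAdd 1 j) + μ (Fin.natAdd 8 0) ≤
        2 * E := by
  constructor
  · rw [Fin.sum_univ_add] at h9
    simpa using h9
  · intro i j hij
    refine hc _ _ _ (fun h => hij (Fin.castAdd_injective _ _ h)) ?_ ?_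
    · intro h
      have := congrArg Fin.val h
      simp only [Fin.val_castAdd, Fin.val_natAdd] at this
      have := j.2
      omega
    · intro h
      have := congrArg Fin.val h
      simp only [Fin.val_castAdd, Fin.val_natAdd] at this
      have := i.2
      omega

private lemma eight_pts_aux {q : Fin (8 + 1) → Fin 2 → ℂ} (hV : VGN (r := 9) one_pos q) {F : R2}
    (hF : Irreducible F) :
    (∑ i : Fin 8, mult (q (Fin.castAdd 1 i)) F + mult (q (Fin.natAdd 8 0)) F ≤ 3 * wdeg 1 F) ∧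
      ∀ i j : Fin 8, i ≠ j → mult (q (Fin.castAdd 1 i)) F +
        mult (q (Fin.castAdd 1 j)) F + mult (q (Fin.natAdd 8 0)) F ≤ 2 * wdeg 1 F := by
  obtain ⟨h1, h2⟩ := nine_facts hV hF
  exact split_num (μ := fun i => mult (q i) F) h1 h2

lemma eight_pts : ∃ T : Set (PtRing (9 + 1)), T.Countable ∧ (∀ Q ∈ T, Q ≠ 0) ∧
    ∀ q : Fin (9 + 1) → Fin 2 → ℂ, (∀ Q ∈ T, evP q Q ≠ 0) → ∀ F : R2, Irreducible F →
      (∑ i : Fin 8, mult (q (Fin.castAdd 1 (Fin.castSucc i))) F + mult (q (Fin.natAdd 9 0)) F ≤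
        3 * wdeg 1 F) ∧
      ∀ i j : Fin 8, i ≠ j → mult (q (Fin.castAdd 1 (Fin.castSucc i))) F +
        mult (q (Fin.castAdd 1 (Fin.castSucc j))) F + mult (q (Fin.natAdd 9 0)) F ≤
          2 * wdeg 1 F := by
  obtain ⟨T, hT, hT0, hTp⟩ := pull_gen ι8 ι8_inj
    (fun q => ∀ F : R2, Irreducible F →
      (∑ i : Fin 8, mult (q (Fin.castAdd 1 i)) F + mult (q (Fin.natAdd 8 0)) F ≤ 3 * wdeg 1 F) ∧
      ∀ i j : Fin 8, i ≠ j → mult (q (Fin.castAdd 1 i)) F +
        mult (q (Fin.castAdd 1 j)) F + mult (q (Fin.natAdd 8 0)) F ≤ 2 * wdeg 1 F)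
    ⟨TN one_pos 9, TN_countable one_pos _, TN_ne one_pos _, 
      fun q hq F hF => eight_pts_aux (VGN_of one_pos hq) hF⟩
  refine ⟨T, hT, hT0, fun q hq F hF => ?_⟩
  have h1 := hTp q hq F hF
  simp only [ι8_left, ι8_right] at h1
  exact h1
theorem std_pos {D X : ℕ} {b : Fin 9 → ℕ} (hmin : ∀ i, b 8 ≤ b i)
    (h3 : ∀ i j k, i ≠ j → j ≠ k → i ≠ k → b i + b j + b k ≤ D)
    (hm : ∀ i, i ≠ 8 → b i + 2 * b 8 + 100 * X ≤ D) : Pos D X b := by
  obtain ⟨T, hTc, hTn, hT⟩ := eight_pts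
  obtain ⟨T', hTc', hTn', hT'⟩ := three_pts 1
  refine ⟨T ∪ T', hTc.union hTc', ?_, fun q hq F hF => ?_⟩
  · rintro Q (hQ | hQ)
    · exact hTn Q hQ
    · exact hTn' Q hQ
  obtain ⟨g1, g2⟩ := hT q (fun Q hQ => hq Q (Or.inl hQ)) F hF
  have g3 := hT' q (fun Q hQ => hq Q (Or.inr hQ)) F hF
  have hne : ∀ i : Fin 8, Fin.castSucc i ≠ 8 := fun i h => by
    have := congrArg Fin.val h
    simp at this
    have := i.2
    omega
  have h0 := hm _ (hne 0)
  have hD3 : 3 * b 8 ≤ D := by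
    have := hmin (Fin.castSucc 0)
    omega
  have h8 := eight_pos (X := X) (E := wdeg 1 F) (red_three hmin h3)
    (μ := fun i => mult (q (Fin.castAdd 1 (Fin.castSucc i))) F)
    (g := mult (q (Fin.natAdd 9 0)) F)
    (fun i => by
      have h1 := hm _ (hne i)
      rw [red_add hmin i] at h1
      omega)
    (fun i => Nef0aux.mult_le_deg _ hF.ne_zero) (Nef0aux.mult_le_deg _ hF.ne_zero) g1 g2
  have hsum : ∑ i : Fin 9, b i * mult (q (Fin.castAdd 1 i)) F =
      ∑ i : Fin 8, red b i * mult (q (Fin.castAdd 1 (Fin.castSucc i))) F +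
        b 8 * ∑ i : Fin 9, mult (q (Fin.castAdd 1 i)) F := by
    rw [Fin.sum_univ_castSucc, Fin.sum_univ_castSucc (fun i => mult (q (Fin.castAdd 1 i)) F),
      mul_add, Finset.mul_sum, ← add_assoc, ← Finset.sum_add_distrib]
    congr 1
    refine Finset.sum_congr rfl fun i _ => ?_
    rw [red_add hmin i]
    ring
  have h5 : b 8 * ∑ i : Fin 9, mult (q (Fin.castAdd 1 i)) F ≤ b 8 * (3 * wdeg 1 F) :=
    Nat.mul_le_mul_left _ g3
  have h6 : (D - 3 * b 8) * wdeg 1 F + b 8 * (3 * wdeg 1 F) = D * wdeg 1 F := by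
    have : b 8 * (3 * wdeg 1 F) = 3 * b 8 * wdeg 1 F := by ring
    rw [this, ← add_mul]
    congr 1
    omega
  rw [hsum]
  omega

end Pool.Agent.helper25.SXN
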