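import Pool.Agent.helper25.SXN.Lorentz

set_option autoImplicit false

/-!
# Module NearNum: the numerical part of `Near.pos` (module Inherit)

`near_num`: let `F'` be a curve of degree `E` with multiplicities `γ` at the nine points and `g ≥ 1` at the
tenth, `∑ γ² ≤ E²`; `c = E² - ∑ γ² ≥ 0`, `a = D E - ∑ b γ ≥ X g`. `lorentz`: `φ = e E - ∑ β γ`,
`(a f - φ N)² ≤ (f² - N NF) (a² - N c) ≤ N mm a² ≤ (a f)² / 1000`, so `a f ≤ 2 φ N`,
`4 φ² N ≥ a² NF`, and with `4 X'² N ≤ NF X²`: `φ ≥ X' g`.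
-/

namespace Pool.Agent.helper25.SXN

open MvPolynomial Pool.Agent.helper5.NBS Pool.Agent.helper89.Segre Pool.Agent.SH9
  Pool.Agent.helper25.ST

/-- real form of the last steps -/
private theorem near_real {N NF X X' g a f φ mm c : ℝ} (hN0 : 0 < N) (hNF : 0 < NF) (hX : 0 < X)
    (hX0' : 0 ≤ X') (hX' : 4 * (X' ^ 2 * N) ≤ NF * X ^ 2)
    (hg : 1 ≤ g) (hc : 0 ≤ c) (ha1 : X * g ≤ a) (hf0 : 0 ≤ f)
    (hf1 : N * NF ≤ f ^ 2) (hf2 : f ^ 2 ≤ N * (NF + mm)) (hm2 : 1000 * mm ≤ NF) (hm1 : 0 ≤ mm)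
    (hl : (φ * N - a * f) ^ 2 ≤ (f ^ 2 - N * NF) * (a ^ 2 - N * c)) :
    X' * g ≤ φ := by
  have ha0 : 0 < a := by nlinarith
  have h7 : (f ^ 2 - N * NF) * (a ^ 2 - N * c) ≤ N * mm * a ^ 2 := by
    have h8 : a ^ 2 - N * c ≤ a ^ 2 := by nlinarith
    calc (f ^ 2 - N * NF) * (a ^ 2 - N * c) ≤ (f ^ 2 - N * NF) * a ^ 2 :=
          mul_le_mul_of_nonneg_left h8 (by linarith)
      _ ≤ N * mm * a ^ 2 := mul_le_mul_of_nonneg_right (by linarith) (sq_nonneg a)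
  have h8 : N * mm * a ^ 2 ≤ (a * f / 2) ^ 2 := by
    have h9 : N * mm ≤ f ^ 2 / 4 := by
      have h10 : N * (1000 * mm) ≤ N * NF := mul_le_mul_of_nonneg_left hm2 hN0.le
      have h11 : 0 ≤ N * mm := by positivity
      linarith
    calc N * mm * a ^ 2 ≤ f ^ 2 / 4 * a ^ 2 := mul_le_mul_of_nonneg_right h9 (sq_nonneg a)
      _ = (a * f / 2) ^ 2 := by ring
  have h9 : |φ * N - a * f| ≤ a * f / 2 :=
    abs_le_of_sq_le_sq (hl.trans (h7.trans h8)) (by positivity)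
  have h10 : a * f ≤ 2 * (φ * N) := by
    have := (abs_le.mp h9).1
    linarith
  have h11 : 2 * N * X' ≤ f * X := by
    have e1 : (2 * N * X') ^ 2 ≤ (f * X) ^ 2 := by
      have e2 : N * NF * X ^ 2 ≤ f ^ 2 * X ^ 2 := mul_le_mul_of_nonneg_right hf1 (sq_nonneg X)
      have e3 : N * (4 * (X' ^ 2 * N)) ≤ N * (NF * X ^ 2) := mul_le_mul_of_nonneg_left hX' hN0.le
      have e4 : (2 * N * X') ^ 2 = N * (4 * (X' ^ 2 * N)) := by ring
      have e5 : (f * X) ^ 2 = f ^ 2 * X ^ 2 := by ring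
      have e6 : N * NF * X ^ 2 = N * (NF * X ^ 2) := by ring
      linarith
    exact (abs_le.mp (abs_le_of_sq_le_sq e1 (by positivity))).2
  have h12 : a * X' ≤ φ * X := by
    have h13 : a * (2 * N * X') ≤ a * (f * X) := mul_le_mul_of_nonneg_left h11 ha0.le
    have h14 : a * f * X ≤ 2 * (φ * N) * X := mul_le_mul_of_nonneg_right h10 hX.le
    have e1 : a * (2 * N * X') = 2 * (N * (a * X')) := by ring
    have e2 : a * (f * X) = a * f * X := by ring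
    have e3 : 2 * (φ * N) * X = 2 * (N * (φ * X)) := by ring
    have h15 : N * (a * X') ≤ N * (φ * X) := by linarith
    exact le_of_mul_le_mul_left h15 hN0
  have e1 : X * g * X' ≤ a * X' := mul_le_mul_of_nonneg_right ha1 hX0'
  have e2 : X * (X' * g) = X * g * X' := by ring
  have e3 : X * φ = φ * X := by ring
  have h13 : X * (X' * g) ≤ X * φ := by linarith
  exact le_of_mul_le_mul_left h13 hX

/-- the numerical core of `Near.pos` -/
theorem near_num {D N e NF W X X' E g : ℕ} {b β γ : Fin 9 → ℕ} (h : Near D b N e β NF W)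
    (hX : 0 < X) (hX' : 4 * (X' ^ 2 * N) ≤ NF * X ^ 2) (hg : 1 ≤ g)
    (hN0 : 0 < N) (hc : ∑ i, γ i ^ 2 ≤ E ^ 2) (h1 : ∑ i, b i * γ i + X * g ≤ D * E) :
    ∑ i, β i * γ i + X' * g ≤ e * E := by
  obtain ⟨f, mm, hf, hf2, hm1, hm2, hm3⟩ := h.near
  have hNF0 : 0 < NF := by omega
  -- real versions
  have r1 : ∑ i, (b i : ℝ) ^ 2 + N = (D : ℝ) ^ 2 := by exact_mod_cast h.hN
  have r2 : ∑ i, (β i : ℝ) ^ 2 + NF = (e : ℝ) ^ 2 := by exact_mod_cast h.hNF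
  have r3 : ∑ i, (b i : ℝ) * β i + f = (D : ℝ) * e := by exact_mod_cast hf
  obtain ⟨hf0, hf1⟩ := rev_cs (D := (D : ℝ)) (e := e) (N := N) (NF := NF) (f := f)
    (Nat.cast_nonneg _) (Nat.cast_nonneg _) r1 (Nat.cast_nonneg _) r2 (Nat.cast_nonneg _) r3
  have hl := lorentz (D := (D : ℝ)) (e := e) (E := E) (N := N) (NF := NF)
    (c := (E : ℝ) ^ 2 - ∑ i, (γ i : ℝ) ^ 2) (a := (D : ℝ) * E - ∑ i, (b i : ℝ) * γ i) (f := f)
    (φ := (e : ℝ) * E - ∑ i, (β i : ℝ) * γ i) r1 (by exact_mod_cast hN0) r2 (by ring) (by ring) r3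
    (by ring)
  have hcR : (0 : ℝ) ≤ (E : ℝ) ^ 2 - ∑ i, (γ i : ℝ) ^ 2 := by
    have : ∑ i, (γ i : ℝ) ^ 2 ≤ (E : ℝ) ^ 2 := by exact_mod_cast hc
    linarith
  have h1R : (X : ℝ) * g ≤ (D : ℝ) * E - ∑ i, (b i : ℝ) * γ i := by
    have : ∑ i, (b i : ℝ) * γ i + (X : ℝ) * g ≤ (D : ℝ) * E := by exact_mod_cast h1
    linarith
  have c1 := near_real (N := (N : ℝ)) (NF := NF) (X := X) (X' := X')
    (g := g) (a := (D : ℝ) * E - ∑ i, (b i : ℝ) * γ i) (f := f)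
    (φ := (e : ℝ) * E - ∑ i, (β i : ℝ) * γ i) (mm := mm)
    (c := (E : ℝ) ^ 2 - ∑ i, (γ i : ℝ) ^ 2)
    (by exact_mod_cast hN0) (by exact_mod_cast hNF0)
    (by exact_mod_cast hX) (Nat.cast_nonneg _) (by exact_mod_cast hX')
    (by exact_mod_cast hg) hcR h1R hf0 hf1 (by exact_mod_cast hf2)
    (by exact_mod_cast hm2) (Nat.cast_nonneg _) hl
  have : ∑ i, (β i : ℝ) * γ i + (X' : ℝ) * g ≤ (e : ℝ) * E := by linarith
  exact_mod_cast this

end Pool.Agent.helper25.SXN
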