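import Pool.Agent.helper25.SXN.Crit
import Pool.Agent.helper25.SXN.NearNum

set_option autoImplicit false

/-!
# Module Inherit: `Pos` is inherited by curves close to `(D; b)`

`Near.pos`: countable set: the one of `Pos D X b`, that of Xu's inequality at ten points and the polynomials
`Qf E' γ` pulled back to ten points. Let `F'` be irreducible, `E = deg`, `γ` its nine
multiplicities, `g` the tenth. If `g = 0`: `(E; γ)` is not empty at nine general points, so `Cross` gives the claim.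
If `g ≥ 1`: Xu's inequality gives `∑ γ² + g² ≤ E² + g`, `∑ γ² ≤ E²`, `near_num`.
`pos_up`: `∑_(i < 9) mult ≤ 3 deg`. `pos_mono`: clear.
-/

namespace Pool.Agent.helper25.SXN

open MvPolynomial Pool.Agent.helper5.NBS Pool.Agent.helper89.Segre Pool.Agent.SH9
  Pool.Agent.helper25.ST Pool.Agent.helper22.SC Pool.Agent.helper7.SC

open Pool.Agent.helper25.ST.Nef0aux in
/-- types of curves at very general points are not empty at general points -/
private lemma not_emp_pts : ∃ T : Set (PtRing (9 + 1)), T.Countable ∧ (∀ Q ∈ T, Q ≠ 0) ∧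
    ∀ q : Fin (9 + 1) → Fin 2 → ℂ, (∀ Q ∈ T, evP q Q ≠ 0) → ∀ F : R2, Irreducible F →
      ¬ E (wdeg 1 F) (Bm fun i => mult (q (Fin.castAdd 1 i)) F) := by
  refine pull_gen (Fin.castAdd 1) (Fin.castAdd_injective _ _)
    (fun q => ∀ F : R2, Irreducible F → ¬ E (wdeg 1 F) (Bm fun i => mult (q i) F))
    ⟨Set.range (fun x : ℕ × (Fin 9 → ℕ) => Qf x.1 x.2), Set.countable_range _, ?_, ?_⟩
  · rintro Q ⟨x, rfl⟩
    exact Qf_ne _ _
  · intro q hq F hF hE
    have h2 := Qf_emp hE (hq _ ⟨(wdeg 1 F, fun i => mult (q i) F), rfl⟩)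
    exact hF.ne_zero (h2 F le_rfl (fun i => (mem_pow_iff_le_mult hF.ne_zero).mpr le_rfl))

theorem Near.pos {D N e NF W X X' : ℕ} {b β : Fin 9 → ℕ} (h : Near D b N e β NF W)
    (hc : Cross e β) (hP : Pos D X b) (hX : 0 < X) (hN0 : 0 < N)
    (hX' : 4 * (X' ^ 2 * N) ≤ NF * X ^ 2) : Pos e X' β := by
  obtain ⟨T, hT, hT0, hq⟩ := hP
  obtain ⟨T2, hT2, hT20, hq2⟩ := not_emp_pts
  refine ⟨T ∪ TN one_pos 10 ∪ T2, (hT.union (TN_countable one_pos _)).union hT2, ?_, ?_⟩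
  · rintro Q ((hQ | hQ) | hQ)
    · exact hT0 Q hQ
    · exact TN_ne one_pos _ Q hQ
    · exact hT20 Q hQ
  · intro q hQ F hF
    have hV : VGN one_pos q := VGN_of one_pos (fun Q hQ' => hQ Q (Or.inl (Or.inr hQ')))
    have h1 := hq q (fun Q hQ' => hQ Q (Or.inl (Or.inl hQ'))) F hF
    have h2 := hq2 q (fun Q hQ' => hQ Q (Or.inr hQ')) F hF
    rcases Nat.eq_zero_or_pos (mult (q (Fin.natAdd 9 0)) F) with hg | hg
    · have h3 := hc _ _ h2
      rw [hg, mul_zero, add_zero]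
      exact h3
    · refine near_num (γ := fun i => mult (q (Fin.castAdd 1 i)) F) h hX hX' hg hN0 ?_ h1
      have h3 := Pool.Agent.KD.xuOne hV hF (Fin.natAdd 9 0) hg
      have h5 : ∑ i : Fin (9 + 1), mult (q i) F ^ 2 =
          ∑ i : Fin 9, mult (q (Fin.castAdd 1 i)) F ^ 2 +
            ∑ i : Fin 1, mult (q (Fin.natAdd 9 i)) F ^ 2 := Fin.sum_univ_add _
      have h6 : ∑ i : Fin (9 + 1), mult (q i) F ^ 2 ≤
        wdeg 1 F ^ 2 + mult (q (Fin.natAdd 9 0)) F := h3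
      rw [h5] at h6
      have h7 : ∑ i : Fin 1, mult (q (Fin.natAdd 9 i)) F ^ 2 =
          mult (q (Fin.natAdd 9 0)) F ^ 2 := by
        simp
      rw [h7] at h6
      have h8 : mult (q (Fin.natAdd 9 0)) F ≤ mult (q (Fin.natAdd 9 0)) F ^ 2 := by
        rw [pow_two]
        exact Nat.le_mul_self _
      omega

theorem pos_up {e X : ℕ} {β : Fin 9 → ℕ} (h : Pos e X β) : Pos (e + 3) X (fun i => β i + 1) := by
  obtain ⟨T, hT, hT0, hq⟩ := h
  obtain ⟨T', hT', hT0', hq'⟩ := three_pts 1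
  refine ⟨T ∪ T', hT.union hT', ?_, ?_⟩
  · rintro Q (hQ | hQ)
    · exact hT0 Q hQ
    · exact hT0' Q hQ
  · intro q hQ F hF
    have h1 := hq q (fun Q hQ' => hQ Q (Or.inl hQ')) F hF
    have h3 := hq' q (fun Q hQ' => hQ Q (Or.inr hQ')) F hF
    have h5 : ∑ i : Fin 9, (β i + 1) * mult (q (Fin.castAdd 1 i)) F =
        ∑ i : Fin 9, β i * mult (q (Fin.castAdd 1 i)) F +
          ∑ i : Fin 9, mult (q (Fin.castAdd 1 i)) F := by
      rw [← Finset.sum_add_distrib]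
      exact Finset.sum_congr rfl fun i _ => by ring
    have h6 : (e + 3) * wdeg 1 F = e * wdeg 1 F + 3 * wdeg 1 F := by ring
    show ∑ i : Fin 9, (β i + 1) * mult (q (Fin.castAdd 1 i)) F + _ ≤ _
    rw [h5, h6]
    omega

theorem pos_mono {e e' X : ℕ} {β : Fin 9 → ℕ} (h : Pos e X β) (he : e ≤ e') : Pos e' X β := by
  obtain ⟨T, hT, hT0, hq⟩ := h
  refine ⟨T, hT, hT0, fun q hQ F hF => ?_⟩
  exact (hq q hQ F hF).trans (Nat.mul_le_mul_right _ he)

theorem Near.deg {D N e NF W : ℕ} {b β : Fin 9 → ℕ} (h : Near D b N e β NF W) (hN0 : 0 < N) :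
    100 * (e ^ 2 * N) ≤ 121 * (NF * D ^ 2) := by
  obtain ⟨f, mm, hf, hf2, hm1, hm2, -⟩ := h.near
  have hNF0 : 0 < NF := by omega
  have r1 : ∑ i, (b i : ℝ) ^ 2 + N = (D : ℝ) ^ 2 := by exact_mod_cast h.hN
  have r2 : ∑ i, (β i : ℝ) ^ 2 + NF = (e : ℝ) ^ 2 := by exact_mod_cast h.hNF
  have r3 : ∑ i, (b i : ℝ) * β i + f = (D : ℝ) * e := by exact_mod_cast hf
  have := deg_real (D := (D : ℝ)) (e := e) (N := N) (NF := NF) (f := f) (mm := mm)
    (Nat.cast_nonneg _) (Nat.cast_nonneg _) r1 (by exact_mod_cast hN0) r2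
    (by exact_mod_cast hNF0) r3 (by exact_mod_cast hf2) (by exact_mod_cast hm2)
  exact_mod_cast this

end Pool.Agent.helper25.SXN
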