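import Pool.Agent.helper25.SXN.Defs

set_option autoImplicit false

/-!
# Module Lorentz: the geometry of signature `(1, 8)` (real numbers, pure inequalities)

`lor_nonpos`: `x0 D = ∑ x b`, so `x0² D² ≤ ∑ x² ∑ b² ≤ ∑ x² D²` (Cauchy-Schwarz).
`lorentz`: with `a = D E - ∑ b γ`, `f = D e - ∑ b β`, `φ = e E - ∑ β γ` and `N = D² - ∑ b² > 0`: the
vectors `G = (e; β) - (f / N) (D; b)` and `C = (E; γ) - (a / N) (D; b)` are orthogonal to `(D; b)`, so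
`⟨G + t C, G + t C⟩ ≤ 0` for all `t` (`lor_nonpos`); discriminant (`discrim_le_zero`):
`⟨G, C⟩² ≤ ⟨G, G⟩ ⟨C, C⟩`, and `⟨G, C⟩ = φ - f a / N`, `⟨G, G⟩ = NF - f² / N`, `⟨C, C⟩ = c - a² / N`,
`NF = e² - ∑ β²`, `c = E² - ∑ γ²`. (Or clear denominators first.)
`rev_cs`: `N NF ≤ f²`: `(∑ b β)² ≤ ∑ b² ∑ β² = (D² - N) (e² - NF)`, and
`(D² - N) (e² - NF) ≤ (D e - √(N NF))²` as `2 D e √(N NF) ≤ D² NF + e² N`; so
`∑ b β ≤ D e - √(N NF)` (`D e ≥ √(N NF)`).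
`deg_real`: with `E = 1`, `γ = 0` in `lorentz`: `a = D`, `φ = e`, `c = 1`:
`(e N - D f)² ≤ (f² - N NF) (D² - N) ≤ (f² - N NF) D²`. With `f² ≤ N (NF + mm)`, `1000 mm ≤ NF`:
`f² - N NF ≤ N NF / 1000`, `f ≤ √(N NF) √(1.001)`, so
`e N ≤ D √(N NF) (√1.001 + √0.001) ≤ 1.04 D √(N NF)`; squares:
`100 e² N ≤ 121 NF D²`.
-/

namespace Pool.Agent.helper25.SXN

theorem lor_nonpos {x0 D : ℝ} {x b : Fin 9 → ℝ} (hD : ∑ i, b i ^ 2 < D ^ 2)
    (h : x0 * D = ∑ i, x i * b i) : x0 ^ 2 ≤ ∑ i, x i ^ 2 := by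
  have hb : 0 ≤ ∑ i, b i ^ 2 := Finset.sum_nonneg fun i _ => sq_nonneg _
  have hx : 0 ≤ ∑ i, x i ^ 2 := Finset.sum_nonneg fun i _ => sq_nonneg _
  have hDpos : 0 < D ^ 2 := lt_of_le_of_lt hb hD
  have hcs : (∑ i, x i * b i) ^ 2 ≤ (∑ i, x i ^ 2) * ∑ i, b i ^ 2 :=
    Finset.sum_mul_sq_le_sq_mul_sq Finset.univ x b
  have h1 : x0 ^ 2 * D ^ 2 ≤ (∑ i, x i ^ 2) * D ^ 2 := by
    calc x0 ^ 2 * D ^ 2 = (x0 * D) ^ 2 := by ring
      _ = (∑ i, x i * b i) ^ 2 := by rw [h]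
      _ ≤ (∑ i, x i ^ 2) * ∑ i, b i ^ 2 := hcs
      _ ≤ (∑ i, x i ^ 2) * D ^ 2 := mul_le_mul_of_nonneg_left hD.le hx
  exact le_of_mul_le_mul_right h1 hDpos

private theorem lorentz_quad {D e E N NF c a f φ : ℝ} {b β γ : Fin 9 → ℝ}
    (hN : ∑ i, b i ^ 2 + N = D ^ 2)
    (hN0 : 0 < N) (hNF : ∑ i, β i ^ 2 + NF = e ^ 2) (hc : ∑ i, γ i ^ 2 + c = E ^ 2)
    (ha : ∑ i, b i * γ i + a = D * E) (hf : ∑ i, b i * β i + f = D * e)
    (hφ : ∑ i, β i * γ i + φ = e * E) (s t : ℝ) :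
    s ^ 2 * (N * (N * NF - f ^ 2)) + 2 * s * t * (N * (N * φ - a * f))
      + t ^ 2 * (N * (N * c - a ^ 2)) ≤ 0 := by
  have hlt : ∑ i, b i ^ 2 < D ^ 2 := by linarith
  have key := lor_nonpos (x0 := s * (N * e - f * D) + t * (N * E - a * D)) (D := D)
    (x := fun i => s * (N * β i - f * b i) + t * (N * γ i - a * b i)) (b := b) hlt (by
      have e1 : ∑ i, (s * (N * β i - f * b i) + t * (N * γ i - a * b i)) * b i
          = s * (N * ∑ i, b i * β i - f * ∑ i, b i ^ 2)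
            + t * (N * ∑ i, b i * γ i - a * ∑ i, b i ^ 2) := by
        simp only [Finset.mul_sum, ← Finset.sum_sub_distrib, ← Finset.sum_add_distrib]
        refine Finset.sum_congr rfl fun i _ => ?_
        ring
      rw [e1]
      have h1 : ∑ i, b i ^ 2 = D ^ 2 - N := by linarith
      have h2 : ∑ i, b i * β i = D * e - f := by linarith
      have h3 : ∑ i, b i * γ i = D * E - a := by linarith
      rw [h1, h2, h3]
      ring)
  have e2 : ∑ i, (s * (N * β i - f * b i) + t * (N * γ i - a * b i)) ^ 2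
      = s ^ 2 * (N ^ 2 * ∑ i, β i ^ 2 - 2 * N * f * ∑ i, b i * β i + f ^ 2 * ∑ i, b i ^ 2)
        + 2 * s * t * (N ^ 2 * ∑ i, β i * γ i - N * a * ∑ i, b i * β i
            - N * f * ∑ i, b i * γ i + a * f * ∑ i, b i ^ 2)
        + t ^ 2 * (N ^ 2 * ∑ i, γ i ^ 2 - 2 * N * a * ∑ i, b i * γ i + a ^ 2 * ∑ i, b i ^ 2) := by
    simp only [Finset.mul_sum, ← Finset.sum_sub_distrib, ← Finset.sum_add_distrib]
    refine Finset.sum_congr rfl fun i _ => ?_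
    ring
  have h1 : ∑ i, b i ^ 2 = D ^ 2 - N := by linarith
  have h2 : ∑ i, b i * β i = D * e - f := by linarith
  have h3 : ∑ i, b i * γ i = D * E - a := by linarith
  have h4 : ∑ i, β i ^ 2 = e ^ 2 - NF := by linarith
  have h5 : ∑ i, γ i ^ 2 = E ^ 2 - c := by linarith
  have h6 : ∑ i, β i * γ i = e * E - φ := by linarith
  rw [e2, h1, h2, h3, h4, h5, h6] at key
  nlinarith [key]

theorem lorentz {D e E N NF c a f φ : ℝ} {b β γ : Fin 9 → ℝ} (hN : ∑ i, b i ^ 2 + N = D ^ 2)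
    (hN0 : 0 < N) (hNF : ∑ i, β i ^ 2 + NF = e ^ 2) (hc : ∑ i, γ i ^ 2 + c = E ^ 2)
    (ha : ∑ i, b i * γ i + a = D * E) (hf : ∑ i, b i * β i + f = D * e)
    (hφ : ∑ i, β i * γ i + φ = e * E) :
    (φ * N - a * f) ^ 2 ≤ (f ^ 2 - N * NF) * (a ^ 2 - N * c) := by
  have hq := lorentz_quad hN hN0 hNF hc ha hf hφ
  have hq' : ∀ s t : ℝ, 0 ≤ s ^ 2 * (f ^ 2 - N * NF) - 2 * s * t * (φ * N - a * f)
      + t ^ 2 * (a ^ 2 - N * c) := by
    intro s t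
    have h := hq s t
    have h' : N * (s ^ 2 * (N * NF - f ^ 2) + 2 * s * t * (N * φ - a * f)
      + t ^ 2 * (N * c - a ^ 2)) ≤ N * 0 := by
      rw [mul_zero]
      calc _ = s ^ 2 * (N * (N * NF - f ^ 2)) + 2 * s * t * (N * (N * φ - a * f))
            + t ^ 2 * (N * (N * c - a ^ 2)) := by ring
        _ ≤ 0 := h
    have h'' := le_of_mul_le_mul_left h' hN0
    nlinarith [h'']
  set P := f ^ 2 - N * NF with hP
  set R := a ^ 2 - N * c with hR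
  set Q := φ * N - a * f with hQ
  have hP0 : 0 ≤ P := by
    have := hq' 1 0
    nlinarith [this]
  rcases hP0.eq_or_lt with h0 | h0
  · -- `P = 0` forces `Q = 0`
    have hR0 : 0 ≤ R := by
      have := hq' 0 1
      nlinarith [this]
    by_contra hcon
    rw [← h0, zero_mul, not_le] at hcon
    -- take `s = (R + 1) / Q`, `t = 1`
    have h3 := hq' ((R + 1) / Q) (1 : ℝ)
    rw [← h0] at h3
    have hQ0 : Q ≠ 0 := by
      intro h
      rw [h] at hcon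
      norm_num at hcon
    have h4 : (R + 1) / Q * Q = R + 1 := div_mul_cancel₀ _ hQ0
    have h5 : 2 * ((R + 1) / Q) * 1 * Q = 2 * (R + 1) := by
      rw [mul_one, mul_assoc, h4]
    rw [h5] at h3
    linarith
  · have h1 := hq' Q P
    -- `Q² P - 2 Q P Q + P² R = P (P R - Q²) ≥ 0`
    have h2 : P * 0 ≤ P * (P * R - Q ^ 2) := by
      rw [mul_zero]
      calc (0 : ℝ) ≤ Q ^ 2 * P - 2 * Q * P * Q + P ^ 2 * R := h1
        _ = P * (P * R - Q ^ 2) := by ring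
    have h3 := le_of_mul_le_mul_left h2 h0
    linarith

theorem rev_cs {D e N NF f : ℝ} {b β : Fin 9 → ℝ} (hD : 0 ≤ D) (he : 0 ≤ e)
    (hN : ∑ i, b i ^ 2 + N = D ^ 2) (hN0 : 0 ≤ N) (hNF : ∑ i, β i ^ 2 + NF = e ^ 2)
    (hNF0 : 0 ≤ NF) (hf : ∑ i, b i * β i + f = D * e) : 0 ≤ f ∧ N * NF ≤ f ^ 2 := by
  have hb : 0 ≤ ∑ i, b i ^ 2 := Finset.sum_nonneg fun i _ => sq_nonneg _
  have hβ : 0 ≤ ∑ i, β i ^ 2 := Finset.sum_nonneg fun i _ => sq_nonneg _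
  have hcs : (∑ i, b i * β i) ^ 2 ≤ (∑ i, b i ^ 2) * ∑ i, β i ^ 2 :=
    Finset.sum_mul_sq_le_sq_mul_sq Finset.univ b β
  have h1 : ∑ i, b i ^ 2 = D ^ 2 - N := by linarith
  have h2 : ∑ i, β i ^ 2 = e ^ 2 - NF := by linarith
  have h3 : ∑ i, b i * β i = D * e - f := by linarith
  rw [h1] at hb
  rw [h2] at hβ
  rw [h1, h2, h3] at hcs
  have hDe : 0 ≤ D * e := mul_nonneg hD he
  have hf0 : 0 ≤ f := by
    have h4 : (D * e - f) ^ 2 ≤ (D * e) ^ 2 := by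
      refine hcs.trans ?_
      calc (D ^ 2 - N) * (e ^ 2 - NF) ≤ D ^ 2 * e ^ 2 :=
            mul_le_mul (by linarith) (by linarith) hβ (sq_nonneg _)
        _ = (D * e) ^ 2 := by ring
    have h5 := abs_le.1 (abs_le_of_sq_le_sq h4 hDe)
    linarith [h5.1, h5.2]
  refine ⟨hf0, ?_⟩
  set u := Real.sqrt N with hu
  set v := Real.sqrt NF with hv
  have hu0 : 0 ≤ u := Real.sqrt_nonneg _
  have hv0 : 0 ≤ v := Real.sqrt_nonneg _
  have hu2 : u ^ 2 = N := Real.sq_sqrt hN0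
  have hv2 : v ^ 2 = NF := Real.sq_sqrt hNF0
  by_contra hcon
  rw [not_le] at hcon
  have huv : 0 ≤ u * v := mul_nonneg hu0 hv0
  have h7 : f < u * v := by
    have : f ^ 2 < (u * v) ^ 2 := by
      rw [mul_pow, hu2, hv2]
      exact hcon
    exact lt_of_pow_lt_pow_left₀ 2 huv this
  have hDu : u ≤ D := by
    have : u ^ 2 ≤ D ^ 2 := by rw [hu2]; linarith
    exact (abs_le.1 (abs_le_of_sq_le_sq this hD)).2
  have hev : v ≤ e := by
    have : v ^ 2 ≤ e ^ 2 := by rw [hv2]; linarith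
    exact (abs_le.1 (abs_le_of_sq_le_sq this he)).2
  have h8 : u * v ≤ D * e := mul_le_mul hDu hev hv0 hD
  have h9 : (D * e - u * v) ^ 2 < (D * e - f) ^ 2 := by
    have h10 : 0 ≤ D * e - u * v := by linarith
    have h11 : D * e - u * v < D * e - f := by linarith
    exact pow_lt_pow_left₀ h11 h10 (by norm_num)
  rw [← hu2, ← hv2] at hcs
  nlinarith [sq_nonneg (D * v - e * u), h9, hcs]

theorem deg_real {D e N NF f mm : ℝ} {b β : Fin 9 → ℝ} (hD : 0 ≤ D) (he : 0 ≤ e)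
    (hN : ∑ i, b i ^ 2 + N = D ^ 2) (hN0 : 0 < N) (hNF : ∑ i, β i ^ 2 + NF = e ^ 2)
    (hNF0 : 0 < NF) (hf : ∑ i, b i * β i + f = D * e) (hfN : f ^ 2 ≤ N * (NF + mm))
    (hmm : 1000 * mm ≤ NF) : 100 * (e ^ 2 * N) ≤ 121 * (NF * D ^ 2) := by
  obtain ⟨hf0, hrev⟩ := rev_cs hD he hN hN0.le hNF hNF0.le hf
  have hlor := lorentz (E := 1) (c := 1) (a := D) (φ := e) (γ := fun _ => 0) hN hN0 hNF
    (by simp) (by simp) hf (by simp)
  -- `(e N - D f)² ≤ (f² - N NF) (D² - N)`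
  set r := Real.sqrt (N * NF) with hr
  have hNNF : 0 ≤ N * NF := mul_nonneg hN0.le hNF0.le
  have hr0 : 0 ≤ r := Real.sqrt_nonneg _
  have hr2 : r ^ 2 = N * NF := Real.sq_sqrt hNNF
  have h1 : 1000 * (f ^ 2 - N * NF) ≤ r ^ 2 := by
    rw [hr2]
    have : N * (1000 * mm) ≤ N * NF := mul_le_mul_of_nonneg_left hmm hN0.le
    nlinarith [this, hfN]
  have hf1 : f ≤ 1.001 * r := by
    have h2 : f ^ 2 ≤ (1.001 * r) ^ 2 := by nlinarith [sq_nonneg r]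
    exact (abs_le.1 (abs_le_of_sq_le_sq h2 (by positivity))).2
  have hbb : 0 ≤ ∑ i, b i ^ 2 := Finset.sum_nonneg fun i _ => sq_nonneg _
  have hDN : 0 ≤ D ^ 2 - N := by linarith
  have h3 : (e * N - D * f) ^ 2 ≤ (0.04 * (r * D)) ^ 2 := by
    refine hlor.trans ?_
    have hA : f ^ 2 - N * NF ≤ r ^ 2 / 1000 := by linarith
    have hA0 : 0 ≤ f ^ 2 - N * NF := by linarith
    calc (f ^ 2 - N * NF) * (D ^ 2 - N * 1) ≤ r ^ 2 / 1000 * D ^ 2 :=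
          mul_le_mul hA (by linarith) (by linarith) (by positivity)
      _ ≤ (0.04 * (r * D)) ^ 2 := by
          have : 0 ≤ r ^ 2 * D ^ 2 := by positivity
          nlinarith [this]
  have h4 : e * N - D * f ≤ 0.04 * (r * D) :=
    (abs_le.1 (abs_le_of_sq_le_sq h3 (by positivity))).2
  have h5 : e * N ≤ 1.1 * (r * D) := by
    have h6 : D * f ≤ D * (1.001 * r) := mul_le_mul_of_nonneg_left hf1 hD
    have h7 : 0 ≤ r * D := mul_nonneg hr0 hD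
    nlinarith [h4, h6, h7]
  have h6 : (e * N) ^ 2 ≤ (1.1 * (r * D)) ^ 2 :=
    pow_le_pow_left₀ (mul_nonneg he hN0.le) h5 2
  have h7 : N * (100 * (e ^ 2 * N)) ≤ N * (121 * (NF * D ^ 2)) := by
    have h8 : (1.1 * (r * D)) ^ 2 = 1.21 * (N * NF) * D ^ 2 := by
      rw [← hr2]
      ring
    rw [h8] at h6
    nlinarith [h6]
  exact le_of_mul_le_mul_left h7 hN0

end Pool.Agent.helper25.SXN
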