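import Pool.Agent.helper25.SXN.Lorentz

set_option autoImplicit false

/-!
# Module NumV: curves which violate nefness (pure inequalities)

`v i ≤ W` the small weights, `b` the big ones, `N = D² - ∑ b²`, `X ≥ 10⁴ W`, `X D ≤ N`. Suppose
`D e < ∑ b β + ∑ v μ` (violation). Let `P = ∑ v μ`, `f = D e - ∑ b β < P`.
(0) Some `μ j > 0`: otherwise `P = 0`, contradiction to `Curve.std` (take any `j`, or `f ≥ 0` from
`16 ...`; here: `hm : 0 < m`, `Curve.std` gives `∑ b β ≤ D e`). Let `mm` be the smallest positive `μ j`,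
`S` the number of `i` with `μ i > 0`. From `Curve.std` for the largest `μ`: `X μmax ≤ f < P ≤ W ∑ μ ≤
W S μmax`, so `S > 10⁴`. Xu: `∑ β² + ∑ μ² ≤ e² + mm ≤ e² + ∑ μ²`, so `NF = e² - ∑ β² ≥ 0` exists, and
`NF ≥ ∑ μ² - mm ≥ S mm² - mm ≥ 9999 mm² ≥ 1000 mm`, `∑ μ² ≤ NF + mm ≤ 2 NF`.
(1) `rev_cs`: `N NF ≤ f²`; `f² < P² ≤ ∑ v² ∑ μ² ≤ N (NF + mm)`. If `∑ μ² ≤ NF` then
`P² ≤ N NF ≤ f²`, contradiction: third conclusion.
(2) real numbers, `s = √(NF / N)`, `y = s W`: `∑ (μ i - s v i)² = ∑ μ² - 2 s P + s² ∑ v² <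
(NF + mm) - 2 NF + (NF - s² Δ)` since `s P > s √(N NF) = NF`; so `∑ (μ i - s v i)² + s² Δ < mm`.
(3) on the support `μ i - s v i ≥ mm - y`; if `mm ≥ 7 y / 6` then `mm - y ≥ mm / 7` and
`S mm² / 49 < mm`, contradiction to `S > 10⁴`. So `mm < 7 y / 6`, in particular `y > 6 / 7`
(conclusion 4), `s² Δ < 7 y / 6` (conclusion 2), `36 mm² N ≤ 49 NF W²`, and
`μ i < s v i + √mm ≤ y + √(7 y / 6) ≤ 13 y / 6` (conclusion 1). Compare ST/NumV.lean.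
-/

namespace Pool.Agent.helper25.SXN

private theorem sumsq_cast {n : ℕ} (a : Fin n → ℕ) :
    ((∑ i, a i ^ 2 : ℕ) : ℝ) = ∑ i, (a i : ℝ) ^ 2 := by
  push_cast
  rfl

private theorem core {D X W Δ N e m : ℕ} {b β : Fin 9 → ℕ} {v μ : Fin m → ℕ} (hm : 0 < m)
    (h : Curve D X b e β μ) (hX : 10 ^ 4 * W ≤ X) (hN : ∑ i, b i ^ 2 + N = D ^ 2)
    (hv : ∀ i, v i ≤ W) (hsq : ∑ i, v i ^ 2 + Δ ≤ N)
    (viol : D * e < ∑ i, b i * β i + ∑ i, v i * μ i) :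
    ∃ NF f mm S : ℕ, ∑ i, β i ^ 2 + NF = e ^ 2 ∧ ∑ i, b i * β i + f = D * e ∧ 1 ≤ mm ∧
      10 ^ 4 * mm ^ 2 ≤ NF ∧ ∑ i, μ i ^ 2 ≤ NF + mm ∧ f ^ 2 ≤ N * (NF + mm) ∧
      NF < ∑ i, μ i ^ 2 ∧ N * NF ≤ f ^ 2 ∧ f < ∑ i, v i * μ i ∧ 10 ^ 4 < S ∧
      ∀ s : ℝ, 0 ≤ s → s * W ≤ mm →
        (S : ℝ) * (mm - s * W) ^ 2 ≤ ∑ i, ((μ i : ℝ) - s * v i) ^ 2 := by
  classical
  obtain ⟨T, hT⟩ : ∃ T : Finset (Fin m), T = Finset.univ.filter (fun i => 0 < μ i) := ⟨_, rfl⟩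
  have hTm : ∀ i, i ∈ T ↔ 0 < μ i := fun i => by rw [hT]; simp
  have hT0 : ∀ i, i ∉ T → μ i = 0 := fun i hi => by
    have := (hTm i).not.1 hi
    omega
  have s1 : ∑ i, v i * μ i = ∑ i ∈ T, v i * μ i := by
    symm
    apply Finset.sum_subset (Finset.subset_univ T)
    intro i _ hi
    rw [hT0 i hi, mul_zero]
  have s2 : ∑ i, μ i ^ 2 = ∑ i ∈ T, μ i ^ 2 := by
    symm
    apply Finset.sum_subset (Finset.subset_univ T)
    intro i _ hi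
    rw [hT0 i hi]; rfl
  have hstd0 : ∑ i, b i * β i ≤ D * e := by
    have := h.std ⟨0, hm⟩
    omega
  obtain ⟨f, hf⟩ := Nat.exists_eq_add_of_le hstd0
  have hfP : f < ∑ i, v i * μ i := by omega
  have hTne : T.Nonempty := by
    by_contra hh
    rw [Finset.not_nonempty_iff_eq_empty] at hh
    rw [s1, hh, Finset.sum_empty] at hfP
    omega
  obtain ⟨j, hj, hmin⟩ := Finset.exists_min_image T μ hTne
  obtain ⟨k, hk, hmax⟩ := Finset.exists_max_image T μ hTne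
  have hj0 : 0 < μ j := (hTm j).1 hj
  have hk0 : 0 < μ k := (hTm k).1 hk
  have hS : 10 ^ 4 < T.card := by
    have g1 : X * μ k ≤ f := by
      have := h.std k
      omega
    have g2 : ∑ i ∈ T, v i * μ i ≤ T.card * (W * μ k) := by
      rw [← smul_eq_mul (a := T.card)]
      apply Finset.sum_le_card_nsmul
      intro i hi
      exact Nat.mul_le_mul (hv i) (hmax i hi)
    have g3 : X * μ k < T.card * (W * μ k) := by
      rw [← s1] at g2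
      omega
    have g4 : (10 ^ 4 * W) * μ k < (T.card * W) * μ k := by
      calc (10 ^ 4 * W) * μ k ≤ X * μ k := Nat.mul_le_mul_right _ hX
        _ < _ := g3
        _ = _ := by ring
    have g5 : 10 ^ 4 * W < T.card * W := lt_of_mul_lt_mul_right g4 (Nat.zero_le _)
    exact lt_of_mul_lt_mul_right g5 (Nat.zero_le _)
  have hxu := h.xu j hj0
  have hlow : T.card * μ j ^ 2 ≤ ∑ i, μ i ^ 2 := by
    rw [s2, ← smul_eq_mul]
    apply Finset.card_nsmul_le_sum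
    intro i hi
    exact Nat.pow_le_pow_left (hmin i hi) 2
  have hmm1 : μ j ≤ μ j ^ 2 := by nlinarith
  have hlow' : (10 ^ 4 + 1) * μ j ^ 2 ≤ ∑ i, μ i ^ 2 :=
    le_trans (Nat.mul_le_mul_right _ hS) hlow
  have hβe : ∑ i, β i ^ 2 ≤ e ^ 2 := by omega
  obtain ⟨NF, hNF⟩ := Nat.exists_eq_add_of_le hβe
  have hμN : ∑ i, μ i ^ 2 ≤ NF + μ j := by omega
  have hNFl : 10 ^ 4 * μ j ^ 2 ≤ NF := by omega
  have hNr : ∑ i, (b i : ℝ) ^ 2 + (N : ℝ) = (D : ℝ) ^ 2 := by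
    rw [← sumsq_cast]; exact_mod_cast hN
  have hNFr : ∑ i, (β i : ℝ) ^ 2 + (NF : ℝ) = (e : ℝ) ^ 2 := by
    rw [← sumsq_cast]; exact_mod_cast hNF.symm
  have hfr : ∑ i, (b i : ℝ) * (β i : ℝ) + (f : ℝ) = (D : ℝ) * (e : ℝ) := by
    exact_mod_cast hf.symm
  obtain ⟨-, hrev⟩ := rev_cs (Nat.cast_nonneg D) (Nat.cast_nonneg e) hNr (Nat.cast_nonneg N) hNFr
    (Nat.cast_nonneg NF) hfr
  have hrevN : N * NF ≤ f ^ 2 := by exact_mod_cast hrev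
  have cs : (∑ i, v i * μ i) ^ 2 ≤ (∑ i, v i ^ 2) * (∑ i, μ i ^ 2) :=
    Finset.sum_mul_sq_le_sq_mul_sq Finset.univ v μ
  have hvN : ∑ i, v i ^ 2 ≤ N := by omega
  have hf2 : f ^ 2 < (∑ i, v i * μ i) ^ 2 := Nat.pow_lt_pow_left hfP (by norm_num)
  have hNFlt : NF < ∑ i, μ i ^ 2 := by
    by_contra hh
    push Not at hh
    have g1 : (∑ i, v i ^ 2) * (∑ i, μ i ^ 2) ≤ N * NF := Nat.mul_le_mul hvN hh
    omega
  have hfN : f ^ 2 ≤ N * (NF + μ j) := by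
    have g1 : (∑ i, v i ^ 2) * (∑ i, μ i ^ 2) ≤ N * (NF + μ j) := Nat.mul_le_mul hvN hμN
    omega
  refine ⟨NF, f, μ j, T.card, hNF.symm, hf.symm, hj0, hNFl, hμN, hfN, hNFlt, hrevN, hfP, hS, ?_⟩
  intro s hs0 hsW
  have g1 : (T.card : ℝ) * (μ j - s * W) ^ 2 ≤ ∑ i ∈ T, ((μ i : ℝ) - s * v i) ^ 2 := by
    rw [← nsmul_eq_mul]
    apply Finset.card_nsmul_le_sum
    intro i hi
    have k1 : (μ j : ℝ) ≤ μ i := by exact_mod_cast hmin i hi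
    have k2 : s * (v i : ℝ) ≤ s * W :=
      mul_le_mul_of_nonneg_left (by exact_mod_cast hv i) hs0
    exact pow_le_pow_left₀ (by linarith) (by linarith) 2
  have g2 : ∑ i ∈ T, ((μ i : ℝ) - s * v i) ^ 2 ≤ ∑ i, ((μ i : ℝ) - s * v i) ^ 2 :=
    Finset.sum_le_sum_of_subset_of_nonneg (Finset.subset_univ T) (fun i _ _ => sq_nonneg _)
  exact g1.trans g2

theorem numVB {D X W Δ N e m : ℕ} {b β : Fin 9 → ℕ} {v μ : Fin m → ℕ} (hm : 0 < m)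
    (h : Curve D X b e β μ) (hW : 1 ≤ W) (hX : 10 ^ 4 * W ≤ X) (hN : ∑ i, b i ^ 2 + N = D ^ 2)
    (hN0 : 0 < N) (hv : ∀ i, v i ≤ W) (hsq : ∑ i, v i ^ 2 + Δ ≤ N)
    (viol : D * e < ∑ i, b i * β i + ∑ i, v i * μ i) :
    ∃ NF : ℕ, 0 < NF ∧ Near D b N e β NF W ∧ (∀ i, 36 * (μ i ^ 2 * N) ≤ 169 * (NF * W ^ 2)) ∧
      36 * (NF * Δ ^ 2) ≤ 49 * (W ^ 2 * N) ∧ NF < ∑ i, μ i ^ 2 ∧ 36 * N ≤ 49 * (NF * W ^ 2) ∧
      ∑ i, μ i ^ 2 ≤ 2 * NF := by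
  obtain ⟨NF, f, mm, S, hNF, hf, hmm, hNFl, hμN, hfN, hNFlt, hrev, hfP, hS, hV⟩ :=
    core hm h hX hN hv hsq viol
  have hmm2 : mm ≤ mm ^ 2 := by nlinarith
  have hNF0 : 0 < NF := by
    have : 0 < mm ^ 2 := by positivity
    omega
  have hNr : (0:ℝ) < N := by exact_mod_cast hN0
  have hNFr : (0:ℝ) < NF := by exact_mod_cast hNF0
  have hWr : (0:ℝ) < W := by exact_mod_cast hW
  have hmr : (1:ℝ) ≤ mm := by exact_mod_cast hmm
  obtain ⟨s, hs⟩ : ∃ s : ℝ, s = Real.sqrt (NF / N) := ⟨_, rfl⟩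
  have hs0 : 0 < s := by rw [hs]; exact Real.sqrt_pos.2 (by positivity)
  have hs2 : s ^ 2 * N = NF := by
    rw [hs, Real.sq_sqrt (by positivity), div_mul_cancel₀ _ hNr.ne']
  have r1 : (∑ i, (μ i : ℝ) ^ 2) ≤ (NF:ℝ) + mm := by
    rw [← sumsq_cast]; exact_mod_cast hμN
  have r2 : (f : ℝ) < ∑ i, (v i : ℝ) * μ i := by exact_mod_cast hfP
  have r3 : (∑ i, (v i : ℝ) ^ 2) + Δ ≤ (N:ℝ) := by
    rw [← sumsq_cast]; exact_mod_cast hsq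
  have r4 : s * N ≤ f := by
    have k1 : (s * N) ^ 2 ≤ (f : ℝ) ^ 2 := by
      have k2 : (s * N) ^ 2 = (N : ℝ) * NF := by
        calc (s * N) ^ 2 = (s ^ 2 * N) * N := by ring
          _ = _ := by rw [hs2]; ring
      rw [k2]
      exact_mod_cast hrev
    exact le_of_sq_le_sq k1 (Nat.cast_nonneg f)
  have hVe : ∑ i, ((μ i : ℝ) - s * v i) ^ 2 =
      (∑ i, (μ i : ℝ) ^ 2) - 2 * s * (∑ i, (v i : ℝ) * μ i) + s ^ 2 * (∑ i, (v i : ℝ) ^ 2) := by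
    rw [Finset.mul_sum, Finset.mul_sum, ← Finset.sum_sub_distrib, ← Finset.sum_add_distrib]
    apply Finset.sum_congr rfl
    intro i _
    ring
  have hVl : ∑ i, ((μ i : ℝ) - s * v i) ^ 2 + s ^ 2 * Δ < mm := by
    have g1 : 2 * s * (s * N) < 2 * s * (∑ i, (v i : ℝ) * μ i) :=
      mul_lt_mul_of_pos_left (lt_of_le_of_lt r4 r2) (by positivity)
    have g2 : s ^ 2 * ((∑ i, (v i : ℝ) ^ 2) + Δ) ≤ s ^ 2 * (N:ℝ) :=
      mul_le_mul_of_nonneg_left r3 (by positivity)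
    have g4 : 2 * s * (s * N) = 2 * (NF:ℝ) := by
      rw [← hs2]; ring
    rw [hVe]
    linarith
  obtain ⟨y, hy⟩ : ∃ y : ℝ, y = s * W := ⟨_, rfl⟩
  have hy0 : 0 < y := by rw [hy]; positivity
  have hyN : y ^ 2 * N = NF * W ^ 2 := by rw [hy, ← hs2]; ring
  have hΔ0 : (0:ℝ) ≤ s ^ 2 * Δ := by positivity
  have hV0 : 0 ≤ ∑ i, ((μ i : ℝ) - s * v i) ^ 2 := Finset.sum_nonneg fun i _ => sq_nonneg _
  have hym : 6 * (mm:ℝ) < 7 * y := by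
    by_contra hh
    push Not at hh
    have h3 := hV s hs0.le (by rw [← hy]; linarith)
    rw [← hy] at h3
    have hSr : (10 : ℝ) ^ 4 < S := by exact_mod_cast hS
    have h4 : (mm : ℝ) ^ 2 ≤ 49 * ((mm : ℝ) - y) ^ 2 := by
      have k1 : (mm : ℝ) ≤ 7 * (mm - y) := by linarith
      calc (mm : ℝ) ^ 2 ≤ (7 * (mm - y)) ^ 2 := pow_le_pow_left₀ (by linarith) k1 2
        _ = _ := by ring
    have h5 : (10:ℝ) ^ 4 * ((mm : ℝ) - y) ^ 2 ≤ S * ((mm : ℝ) - y) ^ 2 :=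
      mul_le_mul_of_nonneg_right hSr.le (sq_nonneg _)
    nlinarith
  have hsD : 6 * (s ^ 2 * Δ) < 7 * y := by linarith
  refine ⟨NF, hNF0, ⟨hN, hNF, f, mm, hf, hfN, hmm, by omega, ?_⟩, ?_, ?_, hNFlt, ?_, by omega⟩
  · have h3 : 36 * ((mm : ℝ) ^ 2 * N) ≤ 49 * (NF * W ^ 2) := by
      rw [← hyN]
      have k1 : (6 * (mm : ℝ)) ^ 2 ≤ (7 * y) ^ 2 := pow_le_pow_left₀ (by positivity) hym.le 2
      nlinarith
    exact_mod_cast h3
  · intro i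
    have h3 : ((μ i : ℝ) - s * v i) ^ 2 ≤ ∑ i, ((μ i : ℝ) - s * v i) ^ 2 :=
      Finset.single_le_sum (f := fun i => ((μ i : ℝ) - s * v i) ^ 2)
        (fun i _ => sq_nonneg _) (Finset.mem_univ i)
    have h4 : ((μ i : ℝ) - s * v i) ^ 2 < (7 / 6 * y) ^ 2 := by nlinarith
    have h5 := abs_lt_of_sq_lt_sq h4 (by positivity)
    have h6 := (abs_lt.1 h5).2
    have h7 : s * (v i : ℝ) ≤ y := by
      rw [hy]
      exact mul_le_mul_of_nonneg_left (by exact_mod_cast hv i) hs0.le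
    have h8 : 6 * (μ i : ℝ) ≤ 13 * y := by linarith
    have h9 : 36 * ((μ i : ℝ) ^ 2 * N) ≤ 169 * (NF * W ^ 2) := by
      rw [← hyN]
      have k1 : (6 * (μ i : ℝ)) ^ 2 ≤ (13 * y) ^ 2 := pow_le_pow_left₀ (by positivity) h8 2
      nlinarith
    exact_mod_cast h9
  · have h4 : 6 * (s * Δ) ≤ 7 * W := by
      have k1 : s * (6 * (s * Δ)) < s * (7 * W) := by
        calc s * (6 * (s * Δ)) = 6 * (s ^ 2 * Δ) := by ring
          _ < 7 * y := hsD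
          _ = _ := by rw [hy]; ring
      exact (lt_of_mul_lt_mul_left k1 hs0.le).le
    have h5 : 36 * ((NF : ℝ) * Δ ^ 2) ≤ 49 * (W ^ 2 * N) := by
      rw [← hs2]
      have k1 : (6 * (s * Δ)) ^ 2 ≤ (7 * (W : ℝ)) ^ 2 := pow_le_pow_left₀ (by positivity) h4 2
      nlinarith
    exact_mod_cast h5
  · have h3 : 36 * (N : ℝ) ≤ 49 * (NF * W ^ 2) := by
      rw [← hyN]
      have k1 : (6 : ℝ) ^ 2 ≤ (7 * y) ^ 2 := pow_le_pow_left₀ (by positivity) (by linarith) 2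
      nlinarith
    exact_mod_cast h3

end Pool.Agent.helper25.SXN
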