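import Pool.Agent.helper25.SXN.Defs

set_option autoImplicit false

/-!
# Module Pull: renaming points

`pull_gen`: a property which holds outside a countable set of polynomials for `a` points holds for the points
`q ∘ ι`, `ι : Fin a → Fin n` injective.
`Pos.pull`: `ι = Fin.append (Fin.castAdd m) (fun _ => Fin.natAdd 9 j)`.
-/

namespace Pool.Agent.helper25.SXN

open MvPolynomial Pool.Agent.helper5.NBS Pool.Agent.helper89.Segre Pool.Agent.SH9
  Pool.Agent.helper25.ST

theorem pull_gen {a n : ℕ} (ι : Fin a → Fin n) (hι : Function.Injective ι)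
    (P : (Fin a → Fin 2 → ℂ) → Prop)
    (h : ∃ T : Set (PtRing a), T.Countable ∧ (∀ Q ∈ T, Q ≠ 0) ∧
      ∀ q : Fin a → Fin 2 → ℂ, (∀ Q ∈ T, evP q Q ≠ 0) → P q) :
    ∃ T : Set (PtRing n), T.Countable ∧ (∀ Q ∈ T, Q ≠ 0) ∧
      ∀ q : Fin n → Fin 2 → ℂ, (∀ Q ∈ T, evP q Q ≠ 0) → P (fun i => q (ι i)) := by
  obtain ⟨T, hT, hT0, hTp⟩ := h
  have hinj : Function.Injective (fun x : Fin a × Fin 2 => ((ι x.1, x.2) : Fin n × Fin 2)) := by
    rintro ⟨x, y⟩ ⟨x', y'⟩ hxy
    simp only [Prod.mk.injEq] at hxy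
    rw [hι hxy.1, hxy.2]
  have hev : ∀ (q : Fin n → Fin 2 → ℂ) (Q : PtRing a),
      evP q (rename (fun x : Fin a × Fin 2 => ((ι x.1, x.2) : Fin n × Fin 2)) Q) =
        evP (fun i => q (ι i)) Q := by
    intro q Q
    rw [evP, evP, eval_rename]
    rfl
  refine ⟨(rename (fun x : Fin a × Fin 2 => ((ι x.1, x.2) : Fin n × Fin 2))) '' T,
    hT.image _, ?_, ?_⟩
  · rintro _ ⟨Q, hQ, rfl⟩ h0
    exact hT0 Q hQ (rename_injective _ hinj (by rw [h0, map_zero]))
  · intro q hq
    exact hTp (fun i => q (ι i)) (fun Q hQ => by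
      rw [← hev]
      exact hq _ ⟨Q, hQ, rfl⟩)

/-- the nine big points and the point `j` -/
def pullι {m : ℕ} (j : Fin m) : Fin (9 + 1) → Fin (9 + m) :=
  Fin.append (Fin.castAdd m) (fun _ => Fin.natAdd 9 j)

lemma pullι_inj {m : ℕ} (j : Fin m) : Function.Injective (pullι j) := by
  intro x y hxy
  induction x using Fin.addCases with
  | left x =>
    induction y using Fin.addCases with
    | left y =>
      rw [pullι, Fin.append_left, Fin.append_left] at hxy
      rw [Fin.castAdd_injective _ _ hxy]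
    | right y =>
      rw [pullι, Fin.append_left, Fin.append_right] at hxy
      have h := congrArg Fin.val hxy
      simp only [Fin.val_castAdd, Fin.val_natAdd] at h
      have := x.2
      omega
  | right x =>
    induction y using Fin.addCases with
    | left y =>
      rw [pullι, Fin.append_left, Fin.append_right] at hxy
      have h := congrArg Fin.val hxy
      simp only [Fin.val_castAdd, Fin.val_natAdd] at h
      have := y.2
      omega
    | right y =>
      rw [Subsingleton.elim x y]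

lemma pullι_left {m : ℕ} (j : Fin m) (i : Fin 9) :
    pullι j (Fin.castAdd 1 i) = Fin.castAdd m i := by
  simp [pullι]

lemma pullι_right {m : ℕ} (j : Fin m) (i : Fin 1) :
    pullι j (Fin.natAdd 9 i) = Fin.natAdd 9 j := by
  rw [pullι, Fin.append_right]

theorem Pos.pull {D X : ℕ} {b : Fin 9 → ℕ} (h : Pos D X b) {m : ℕ} (j : Fin m) :
    ∃ T : Set (PtRing (9 + m)), T.Countable ∧ (∀ Q ∈ T, Q ≠ 0) ∧
      ∀ q : Fin (9 + m) → Fin 2 → ℂ, (∀ Q ∈ T, evP q Q ≠ 0) → ∀ F : R2, Irreducible F →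
        ∑ i, b i * mult (q (Fin.castAdd m i)) F + X * mult (q (Fin.natAdd 9 j)) F ≤
          D * wdeg 1 F := by
  obtain ⟨T, hT, hT0, hTp⟩ := pull_gen (pullι j) (pullι_inj j) _ h
  refine ⟨T, hT, hT0, fun q hq F hF => ?_⟩
  have h1 := hTp q hq F hF
  simp only [pullι_left, pullι_right] at h1
  exact h1

end Pool.Agent.helper25.SXN
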