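import Pool.Agent.KB.N4

set_option autoImplicit false

/-!
# Module StdNum: standard systems, numerical part
-/

namespace Pool.Agent.helper25.SXN

/-- the largest three values -/
lemma top_three {n : ℕ} (hn : 3 ≤ n) (b : Fin n → ℕ) : ∃ a c e : Fin n, a ≠ c ∧ c ≠ e ∧ a ≠ e ∧
    b c ≤ b a ∧ b e ≤ b c ∧ (∀ i ∈ (Finset.univ.erase a).erase c, b i ≤ b e) ∧
    (∀ i, i ≠ a → b i ≤ b c) ∧
    ((Finset.univ.erase a).erase c).card = n - 2 ∧
    ∀ f : Fin n → ℕ, ∑ i, f i = f a + (f c + ∑ i ∈ (Finset.univ.erase a).erase c, f i) := by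
  classical
  have : Nonempty (Fin n) := ⟨⟨0, by omega⟩⟩
  obtain ⟨a, -, ha⟩ := Finset.exists_max_image Finset.univ b Finset.univ_nonempty
  obtain ⟨c, hc, hcm⟩ := Finset.exists_max_image (Finset.univ.erase a) b (by
    rw [← Finset.card_pos, Finset.card_erase_of_mem (Finset.mem_univ a)]; simp; omega)
  have hcard : (((Finset.univ : Finset (Fin n)).erase a).erase c).card = n - 2 := by
    rw [Finset.card_erase_of_mem hc, Finset.card_erase_of_mem (Finset.mem_univ a)]
    simp
    omega
  obtain ⟨e, he, hem⟩ := Finset.exists_max_image ((Finset.univ.erase a).erase c) b (by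
    rw [← Finset.card_pos, hcard]; omega)
  have hca : c ≠ a := (Finset.mem_erase.mp hc).1
  have hec : e ≠ c := (Finset.mem_erase.mp he).1
  have he' : e ∈ Finset.univ.erase a := (Finset.mem_erase.mp he).2
  have hea : e ≠ a := (Finset.mem_erase.mp he').1
  refine ⟨a, c, e, hca.symm, hec.symm, hea.symm, ha c (Finset.mem_univ c), hcm e he', hem,
    fun i hi => hcm i (Finset.mem_erase.mpr ⟨hi, Finset.mem_univ i⟩), hcard, fun f => ?_⟩
  rw [Finset.add_sum_erase _ _ hc, Finset.add_sum_erase _ _ (Finset.mem_univ a)]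

/-- conics through three points -/
lemma conic_num {μ : Fin 9 → ℕ} {E : ℕ} (hle : ∀ i, μ i ≤ E)
    (xu : ∀ j, 0 < μ j → ∑ i, μ i ^ 2 ≤ E ^ 2 + μ j) (i j k : Fin 9) (hij : i ≠ j) (hjk : j ≠ k)
    (hik : i ≠ k) : μ i + μ j + μ k ≤ 2 * E := by
  classical
  by_contra hcon
  push Not at hcon
  have hi := hle i
  have hj := hle j
  have hk := hle k
  have hQ : μ i ^ 2 + μ j ^ 2 + μ k ^ 2 ≤ ∑ l, μ l ^ 2 := by
    have h1 : ∑ l ∈ ({i, j, k} : Finset (Fin 9)), μ l ^ 2 ≤ ∑ l, μ l ^ 2 :=
      Finset.sum_le_sum_of_subset (Finset.subset_univ _)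
    rw [Finset.sum_insert (by simp [hij, hik]), Finset.sum_insert (by simp [hjk]),
      Finset.sum_singleton] at h1
    omega
  have x1 := xu i (by omega)
  have x2 := xu j (by omega)
  have x3 := xu k (by omega)
  obtain ⟨s, hs⟩ : ∃ s, s = μ i + μ j + μ k := ⟨_, rfl⟩
  have h1 : s ^ 2 ≤ 3 * (μ i ^ 2 + μ j ^ 2 + μ k ^ 2) := by
    rw [hs]
    have hz : (((μ i + μ j + μ k : ℕ) : ℤ)) ^ 2 ≤ 3 * ((μ i : ℤ) ^ 2 + (μ j : ℤ) ^ 2 + (μ k : ℤ) ^ 2) := by
      push_cast
      nlinarith [sq_nonneg ((μ i : ℤ) - μ j), sq_nonneg ((μ j : ℤ) - μ k),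
        sq_nonneg ((μ i : ℤ) - μ k)]
    exact_mod_cast hz
  have h2 : s ^ 2 ≤ 3 * E ^ 2 + s := by omega
  have h3 : 2 * E + 1 ≤ s := by omega
  have h4 : 1 ≤ E := by omega
  nlinarith

/-- the linear inequality with the two largest weights given -/
lemma lin3 {D0 E z : ℕ} (w μ : Fin 9 → ℕ) (a c : Fin 9) (hac : a ≠ c)
    (hz : ∀ i, i ≠ a → i ≠ c → w i ≤ z) (hza : z ≤ w a) (hzc : z ≤ w c)
    (h : w a + w c + z ≤ D0) (hle : ∀ i, μ i ≤ E) (hs : ∑ i, μ i ≤ 3 * E) :
    ∑ i, w i * μ i ≤ D0 * E := by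
  classical
  have hc : c ∈ Finset.univ.erase a := Finset.mem_erase.mpr ⟨hac.symm, Finset.mem_univ c⟩
  have hsum : ∀ f : Fin 9 → ℕ, ∑ i, f i = f a + (f c + ∑ i ∈ (Finset.univ.erase a).erase c, f i) :=
    fun f => by
    rw [Finset.add_sum_erase _ _ hc, Finset.add_sum_erase _ _ (Finset.mem_univ a)]
  have hrest : ∑ i ∈ (Finset.univ.erase a).erase c, w i * μ i ≤
      z * ∑ i ∈ (Finset.univ.erase a).erase c, μ i := by
    rw [Finset.mul_sum]
    refine Finset.sum_le_sum fun i hi => Nat.mul_le_mul_right _ ?_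
    have h1 := Finset.mem_erase.mp hi
    have h2 := Finset.mem_erase.mp h1.2
    exact hz i h2.1 h1.1
  rw [hsum μ] at hs
  rw [hsum (fun i => w i * μ i)]
  have ha := hle a
  have hc' := hle c
  generalize ∑ i ∈ (Finset.univ.erase a).erase c, μ i = R at hs hrest
  generalize ∑ i ∈ (Finset.univ.erase a).erase c, w i * μ i = S at hrest ⊢
  obtain ⟨A, hA⟩ : ∃ A, w a = z + A := ⟨w a - z, by omega⟩
  obtain ⟨B, hB⟩ : ∃ B, w c = z + B := ⟨w c - z, by omega⟩
  have h1 : A * μ a ≤ A * E := Nat.mul_le_mul_left _ ha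
  have h2 : B * μ c ≤ B * E := Nat.mul_le_mul_left _ hc'
  have h3 : z * (μ a + (μ c + R)) ≤ z * (3 * E) := Nat.mul_le_mul_left _ hs
  have h4 : (w a + w c + z) * E ≤ D0 * E := Nat.mul_le_mul_right _ h
  rw [hA, hB] at h4 ⊢
  nlinarith

private lemma sum_split (f : Fin (8 + 1) → ℕ) :
    ∑ i, f i = ∑ i : Fin 8, f (Fin.castAdd 1 i) + f (Fin.natAdd 8 0) := by
  rw [Fin.sum_univ_add]
  simp

/-- eight standard weights and one small weight at nine points -/
lemma eight_pos {D X E g : ℕ} {b μ : Fin 8 → ℕ}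
    (h3 : ∀ i j k, i ≠ j → j ≠ k → i ≠ k → b i + b j + b k ≤ D)
    (hm : ∀ i, b i + 100 * X ≤ D) (hle : ∀ i, μ i ≤ E) (hg : g ≤ E)
    (hs : ∑ i, μ i + g ≤ 3 * E) (hcon : ∀ i j, i ≠ j → μ i + μ j + g ≤ 2 * E) :
    ∑ i, b i * μ i + X * g ≤ D * E := by
  classical
  obtain ⟨a, c, e, hac, hce, hae, hba, hbc, hmax, hmax2, -, hsum⟩ := top_three (by norm_num) b
  have htri := h3 a c e hac hce hae
  have hma := hm a
  set ν : Fin (8 + 1) → ℕ := Fin.append μ (fun _ : Fin 1 => g) with hν
  have hνle : ∀ i, ν i ≤ E := by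
    intro i
    refine Fin.addCases (m := 8) (n := 1) (fun i => ?_) (fun i => ?_) i
    · rw [hν, Fin.append_left]; exact hle i
    · rw [hν, Fin.append_right]; exact hg
  have hνs : ∑ i, ν i ≤ 3 * E := by
    rw [sum_split]
    simp only [hν, Fin.append_left, Fin.append_right]
    exact hs
  have hac' : (Fin.castAdd 1 a : Fin (8 + 1)) ≠ Fin.castAdd 1 c := fun h =>
    hac (Fin.castAdd_injective _ _ h)
  have hoth : ∀ i : Fin 8, i ≠ a → i ≠ c → b i ≤ b e := fun i h1 h2 =>
    hmax i (Finset.mem_erase.mpr ⟨h2, Finset.mem_erase.mpr ⟨h1, Finset.mem_univ i⟩⟩)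
  by_cases hX : X ≤ b e
  · -- case A
    have h1 := lin3 (D0 := D - 3 * X) (z := b e - X)
      (Fin.append (fun i => b i - X) (fun _ : Fin 1 => 0)) ν
      (Fin.castAdd 1 a) (Fin.castAdd 1 c) hac' (by
        intro i
        refine Fin.addCases (m := 8) (n := 1) (fun i => ?_) (fun i => ?_) i
        · intro h1 h2
          rw [Fin.append_left]
          have := hoth i (fun h => h1 (by rw [h])) (fun h => h2 (by rw [h]))
          omega
        · intro _ _
          rw [Fin.append_right]
          exact Nat.zero_le _)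
      (by rw [Fin.append_left]; omega) (by rw [Fin.append_left]; omega)
      (by rw [Fin.append_left, Fin.append_left]; omega) hνle hνs
    have h1' : ∑ i, (b i - X) * μ i ≤ (D - 3 * X) * E := by
      have h2 : ∑ i : Fin (8 + 1), Fin.append (fun i => b i - X) (fun _ : Fin 1 => 0) i * ν i =
          ∑ i, (b i - X) * μ i := by
        rw [sum_split]
        simp only [hν, Fin.append_left, Fin.append_right, zero_mul, add_zero]
      rw [← h2]
      exact h1
    have h3' : ∑ i, min (b i) X * μ i ≤ X * ∑ i, μ i := by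
      rw [Finset.mul_sum]
      exact Finset.sum_le_sum fun i _ => Nat.mul_le_mul_right _ (min_le_right _ _)
    have h4 : ∑ i, b i * μ i = ∑ i, (b i - X) * μ i + ∑ i, min (b i) X * μ i := by
      rw [← Finset.sum_add_distrib]
      refine Finset.sum_congr rfl fun i _ => ?_
      rw [← add_mul]
      congr 1
      rcases Nat.le_total (b i) X with h | h
      · rw [min_eq_left h]; omega
      · rw [min_eq_right h]; omega
    have h5 : X * (∑ i, μ i + g) ≤ X * (3 * E) := Nat.mul_le_mul_left _ hs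
    have h6 : (D - 3 * X) * E + 3 * X * E = D * E := by
      rw [← add_mul]
      congr 1
      omega
    rw [h4]
    nlinarith
  · push Not at hX
    by_cases hY : b a + b c + X ≤ D
    · -- nine_lin
      have hpair : ∀ i j : Fin 8, i ≠ j → b i + b j + X ≤ D := by
        intro i j hij
        by_cases hia : i = a
        · subst hia
          have := hmax2 j (Ne.symm hij)
          omega
        · have h1 := hmax2 i hia
          by_cases hja : j = a
          · subst hja
            omega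
          · have h2 := hmax2 j hja
            omega
      have h := Pool.Agent.KB.nine_lin (D0 := D) (D := E)
        (Fin.append b (fun _ : Fin 1 => X)) ν ?_ hνle hνs
      · have h' : ∑ i : Fin (8 + 1), Fin.append b (fun _ : Fin 1 => X) i * ν i ≤ D * E := h
        rw [sum_split] at h'
        simp only [hν, Fin.append_left, Fin.append_right] at h'
        exact h'
      · intro i j k
        refine Fin.addCases (m := 8) (n := 1) (fun i => ?_) (fun i => ?_) i <;>
        refine Fin.addCases (m := 8) (n := 1) (fun j => ?_) (fun j => ?_) j <;>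
        refine Fin.addCases (m := 8) (n := 1) (fun k => ?_) (fun k => ?_) k <;>
        intro hij hjk hik <;>
        simp only [Fin.append_left, Fin.append_right]
        · exact h3 i j k (fun h => hij (by rw [h])) (fun h => hjk (by rw [h]))
            (fun h => hik (by rw [h]))
        · exact hpair i j (fun h => hij (by rw [h]))
        · have := hpair i k (fun h => hik (by rw [h]))
          omega
        · exact absurd (by rw [Subsingleton.elim j k]) hjk
        · have := hpair j k (fun h => hjk (by rw [h]))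
          omega
        · exact absurd (by rw [Subsingleton.elim i k]) hik
        · exact absurd (by rw [Subsingleton.elim i j]) hij
        · exact absurd (by rw [Subsingleton.elim i j]) hij
    · push Not at hY
      have hc99 : 2 * X ≤ b c := by omega
      have h1 := lin3 (D0 := D - 2 * X) (z := b e)
        (Fin.append (fun i => if i = a ∨ i = c then b i - X else b i) (fun _ : Fin 1 => 0)) ν
        (Fin.castAdd 1 a) (Fin.castAdd 1 c) hac' (by
          intro i
          refine Fin.addCases (m := 8) (n := 1) (fun i => ?_) (fun i => ?_) i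
          · intro h1 h2
            rw [Fin.append_left]
            have h1' : i ≠ a := fun h => h1 (by rw [h])
            have h2' : i ≠ c := fun h => h2 (by rw [h])
            rw [if_neg (by tauto)]
            exact hoth i h1' h2'
          · intro _ _
            rw [Fin.append_right]
            exact Nat.zero_le _)
        (by rw [Fin.append_left, if_pos (Or.inl rfl)]; omega)
        (by rw [Fin.append_left, if_pos (Or.inr rfl)]; omega)
        (by rw [Fin.append_left, Fin.append_left, if_pos (Or.inl rfl), if_pos (Or.inr rfl)]; omega)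
        hνle hνs
      have h1' : ∑ i, (if i = a ∨ i = c then b i - X else b i) * μ i ≤ (D - 2 * X) * E := by
        have h2 : ∑ i : Fin (8 + 1), Fin.append (fun i => if i = a ∨ i = c then b i - X else b i)
            (fun _ : Fin 1 => 0) i * ν i =
            ∑ i, (if i = a ∨ i = c then b i - X else b i) * μ i := by
          rw [sum_split]
          simp only [hν, Fin.append_left, Fin.append_right, zero_mul, add_zero]
        rw [← h2]
        exact h1
      have h4 : ∑ i, b i * μ i ≤ ∑ i, (if i = a ∨ i = c then b i - X else b i) * μ i +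
          (X * μ a + X * μ c) := by
        rw [hsum (fun i => b i * μ i),
          hsum (fun i => (if i = a ∨ i = c then b i - X else b i) * μ i)]
        have h5 : ∑ i ∈ (Finset.univ.erase a).erase c, b i * μ i =
            ∑ i ∈ (Finset.univ.erase a).erase c,
              (if i = a ∨ i = c then b i - X else b i) * μ i := by
          refine Finset.sum_congr rfl fun i hi => ?_
          have h6 := Finset.mem_erase.mp hi
          have h7 := Finset.mem_erase.mp h6.2
          rw [if_neg (by tauto)]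
        rw [h5]
        beta_reduce
        rw [if_pos (Or.inl rfl), if_pos (Or.inr rfl)]
        have h8 : b a * μ a = (b a - X) * μ a + X * μ a := by
          rw [← add_mul]
          congr 1
          omega
        have h9 : b c * μ c = (b c - X) * μ c + X * μ c := by
          rw [← add_mul]
          congr 1
          omega
        omega
      have h5 : X * (μ a + μ c + g) ≤ X * (2 * E) := Nat.mul_le_mul_left _ (hcon a c hac)
      have h6 : (D - 2 * X) * E + 2 * X * E = D * E := by
        rw [← add_mul]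
        congr 1
        omega
      nlinarith

private lemma rest_le {n : ℕ} {b : Fin n → ℕ} {S : Finset (Fin n)} {z k : ℕ}
    (h : ∀ i ∈ S, b i ≤ z) (hS : S.card = k) :
    ∑ i ∈ S, b i ≤ k * z ∧ ∑ i ∈ S, b i ^ 2 ≤ k * z ^ 2 := by
  constructor
  · have h1 := Finset.sum_le_card_nsmul S (fun i => b i) z (fun i hi => h i hi)
    rwa [hS, smul_eq_mul] at h1
  · have h1 := Finset.sum_le_card_nsmul S (fun i => b i ^ 2) (z ^ 2)
      (fun i hi => Nat.pow_le_pow_left (h i hi) 2)
    rwa [hS, smul_eq_mul] at h1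

/-- the two inequalities for eight standard weights -/
lemma eight_N {D Y : ℕ} {b : Fin 8 → ℕ}
    (h3 : ∀ i j k, i ≠ j → j ≠ k → i ≠ k → b i + b j + b k ≤ D)
    (hm : ∀ i, b i + Y ≤ D) :
    Y + 2 * ∑ i, b i ≤ 6 * D ∧ D * Y + 6 * ∑ i, b i ^ 2 ≤ 6 * D ^ 2 := by
  classical
  obtain ⟨a, c, e, hac, hce, hae, hba, hbc, hmax, -, hcard, hsum⟩ := top_three (by norm_num) b
  obtain ⟨r1, r2⟩ := rest_le hmax hcard
  have htri := h3 a c e hac hce hae
  have hma := hm a
  rw [hsum (fun i => b i ^ 2), hsum b]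
  generalize ∑ i ∈ (Finset.univ.erase a).erase c, b i ^ 2 = S2 at r2 ⊢
  generalize ∑ i ∈ (Finset.univ.erase a).erase c, b i = S1 at r1 ⊢
  generalize b a = x at *
  generalize b c = y at *
  generalize b e = z at *
  norm_num at r1 r2
  constructor
  · omega
  · obtain ⟨k, rfl⟩ : ∃ k, D = x + k := ⟨D - x, by omega⟩
    have hY : Y ≤ k := by omega
    have e1 : (x + k) * Y ≤ (x + k) * k := Nat.mul_le_mul_left _ hY
    obtain ⟨u, rfl⟩ : ∃ u, k = y + z + u := ⟨k - y - z, by omega⟩
    obtain ⟨v, rfl⟩ : ∃ v, x = y + v := ⟨x - y, by omega⟩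
    obtain ⟨t, rfl⟩ : ∃ t, y = z + t := ⟨y - z, by omega⟩
    nlinarith [Nat.zero_le (z * t), Nat.zero_le (z * u), Nat.zero_le (z * v), Nat.zero_le (t * u),
      Nat.zero_le (t * v), Nat.zero_le (u * v), Nat.zero_le (t * t), Nat.zero_le (u * u)]

theorem std_three {D : ℕ} {b : Fin 9 → ℕ}
    (h3 : ∀ i j k, i ≠ j → j ≠ k → i ≠ k → b i + b j + b k ≤ D) :
    ∑ i, b i ≤ 3 * D ∧ ∑ i, b i ^ 2 ≤ D ^ 2 := by
  classical
  obtain ⟨a, c, e, hac, hce, hae, hba, hbc, hmax, -, hcard, hsum⟩ := top_three (by norm_num) b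
  obtain ⟨r1, r2⟩ := rest_le hmax hcard
  norm_num at r1 r2
  have htri := h3 a c e hac hce hae
  rw [hsum (fun i => b i ^ 2), hsum b]
  constructor
  · omega
  · have h1 : (b a + b c + b e) ^ 2 ≤ D ^ 2 := Nat.pow_le_pow_left htri 2
    have h2 : b e * b e ≤ b a * b c := Nat.mul_le_mul (by omega) (by omega)
    have h4 : b e * b e ≤ b a * b e := Nat.mul_le_mul_right _ (by omega)
    have h5 : b e * b e ≤ b c * b e := Nat.mul_le_mul_right _ (by omega)
    nlinarith

/-- the weights minus the last one -/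
def red (b : Fin 9 → ℕ) : Fin 8 → ℕ := fun i => b (Fin.castSucc i) - b 8

lemma red_add {b : Fin 9 → ℕ} (hmin : ∀ i, b 8 ≤ b i) (i : Fin 8) :
    b (Fin.castSucc i) = red b i + b 8 := by
  have := hmin (Fin.castSucc i)
  rw [red]
  omega

lemma red_three {D : ℕ} {b : Fin 9 → ℕ} (hmin : ∀ i, b 8 ≤ b i)
    (h3 : ∀ i j k, i ≠ j → j ≠ k → i ≠ k → b i + b j + b k ≤ D) :
    ∀ i j k, i ≠ j → j ≠ k → i ≠ k → red b i + red b j + red b k ≤ D - 3 * b 8 := by
  intro i j k hij hjk hik
  have h := h3 (Fin.castSucc i) (Fin.castSucc j) (Fin.castSucc k)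
    (fun h => hij (Fin.castSucc_injective _ h)) (fun h => hjk (Fin.castSucc_injective _ h))
    (fun h => hik (Fin.castSucc_injective _ h))
  rw [red_add hmin i, red_add hmin j, red_add hmin k] at h
  omega

theorem std_N {D Y N : ℕ} {b : Fin 9 → ℕ} (hmin : ∀ i, b 8 ≤ b i)
    (h3 : ∀ i j k, i ≠ j → j ≠ k → i ≠ k → b i + b j + b k ≤ D)
    (hm : ∀ i, i ≠ 8 → b i + 2 * b 8 + Y ≤ D) (hN : ∑ i, b i ^ 2 + N = D ^ 2) :
    D * Y ≤ 6 * N := by
  classical
  have hne : ∀ i : Fin 8, Fin.castSucc i ≠ 8 := fun i h => by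
    have := congrArg Fin.val h
    simp at this
    have := i.2
    omega
  have h0 := hm _ (hne 0)
  have hD3 : 3 * b 8 ≤ D := by
    have := hmin (Fin.castSucc 0)
    omega
  obtain ⟨D', rfl⟩ : ∃ D', D = 3 * b 8 + D' := ⟨D - 3 * b 8, by omega⟩
  have hr := red_three hmin h3
  rw [Nat.add_sub_cancel_left] at hr
  obtain ⟨e1, e2⟩ := eight_N (Y := Y) hr (fun i => by
    have h1 := hm _ (hne i)
    rw [red_add hmin i] at h1
    omega)
  have hs : ∑ i, b i ^ 2 = ∑ i, red b i ^ 2 + 2 * b 8 * ∑ i, red b i + 9 * b 8 ^ 2 := by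
    rw [Fin.sum_univ_castSucc]
    have h1 : ∑ i : Fin 8, b (Fin.castSucc i) ^ 2 =
        ∑ i, red b i ^ 2 + 2 * b 8 * ∑ i, red b i + 8 * b 8 ^ 2 := by
      rw [Finset.mul_sum, ← Finset.sum_add_distrib]
      have h2 : ∀ i : Fin 8, b (Fin.castSucc i) ^ 2 =
          red b i ^ 2 + 2 * b 8 * red b i + b 8 ^ 2 := by
        intro i
        rw [red_add hmin i]
        ring
      rw [Finset.sum_congr rfl fun i _ => h2 i, Finset.sum_add_distrib]
      simp
    rw [h1]
    have h3 : b (Fin.last 8) = b 8 := rfl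
    rw [h3]
    ring
  rw [hs] at hN
  generalize ∑ i, red b i ^ 2 = Q at *
  generalize ∑ i, red b i = S at *
  generalize b 8 = s at *
  have h3Y : s * (Y + 2 * S) ≤ s * (6 * D') := Nat.mul_le_mul_left _ e1
  have h3S : s * (2 * S) ≤ s * (6 * D') := Nat.mul_le_mul_left _ (by omega)
  nlinarith

end Pool.Agent.helper25.SXN
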